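import Pool.Agent.H2VL.Flx

/-!
Project VL, parts 4 and 5: the lower bound of the flux, and the flux through the surface of a cube.
-/

set_option autoImplicit false

open MeasureTheory Set Metric Filter Topology
open scoped ContDiff
open H459R3.NS Pool.Agent.W268.NS Pool.Agent.Q67.VD

namespace Pool.Agent.H2VL

open Pool.Agent.Q85.CC Pool.Agent.Q85.CL Pool.Agent.Q151.CC Pool.Agent.Q85.VL

section

variable {κ ρ R : ℝ} {x : V} {f m : V → ℝ} {W : V → V} {g : V → ℝ}

/-! ### VL-4 -/

/-- The lower bound of the flux at the scale `r ≥ 128 ρ / κ`. -/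
theorem lb_strong (hκ : 0 < κ) (hκ1 : κ ≤ 1) (hρ : 0 < ρ) (h : LF κ R x f m W g) {r : ℝ}
    (hρr : 128 / κ * ρ ≤ r) (hrR : r ≤ R) :
    1 / r * ∫ y in closedBall x ρ, f y
      ≤ AA κ ρ R g x W m r + 8 / (κ * r) * ∫ y in closedBall x r, m y := by
  have hρr' : 128 * ρ ≤ κ * r := by
    rw [div_mul_eq_mul_div, div_le_iff₀ hκ] at hρr
    linarith
  have hr : 0 < r := by
    have : 0 < κ * r := by linarith
    exact pos_of_mul_pos_right this hκ.le
  have hκr : κ * r ≤ r := mul_le_of_le_one_left hr.le hκ1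
  have hρr2 : ρ ≤ r := by linarith
  have hw : ContDiff ℝ 1 (ww κ ρ g x) := ww_smooth h.gs hρ
  obtain ⟨S, hS⟩ : ∃ S : V → ℝ, S = fun y => stp ((ww κ ρ g x y + κ * r / 8) / (κ * r / 4)) :=
    ⟨_, rfl⟩
  have hSs : ContDiff ℝ 1 S := by
    rw [hS]
    exact stp_comp hw _ _
  have hSd : ∀ y, dv S W y = stp' ((ww κ ρ g x y + κ * r / 8) / (κ * r / 4)) / (κ * r / 4)
      * dv (ww κ ρ g x) W y := by
    intro y
    rw [hS]
    exact stp_comp_fd hw _ _ _ _
  have hSn : ∀ y, S y ≠ 0 → -(κ * r / 8) < ww κ ρ g x y := by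
    intro y hy
    rw [hS] at hy
    have h2 := stp_ne_zero hy
    by_contra hc
    have hb : 0 < κ * r / 4 := by positivity
    exact absurd h2 (not_lt.2 (div_nonpos_of_nonpos_of_nonneg (by linarith) hb.le))
  have hST : ∀ y, S y ≤ TT κ ρ g x r y := by
    intro y
    by_cases hy : S y = 0
    · rw [hy]
      exact TT_nonneg _ _
    · have h1 := hSn y hy
      rw [hS]
      apply stp_mono
      rw [div_le_div_iff₀ (by positivity) (by positivity)]
      have h2 : 0 < ww κ ρ g x y + κ * r / 8 := by linarith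
      have h3 : 0 < κ * r := by positivity
      nlinarith
  have hP := PS_smooth (κ := κ) (x := x) h.gs hρ r
  have hP1 : ContDiff ℝ 1 (fun y => 1 - PS κ ρ g x r y) := contDiff_const.sub hP
  have hsupp : ∀ y, S y ≠ 0 → uu κ ρ g x y < κ * r / 32 → y ∈ closedBall x r := fun y h1 h2 =>
    mem_of_ds ((ds_lt hκ h2 (hSn y h1)).le.trans (by linarith))
  have hFne : ∀ y, S y * (1 - PS κ ρ g x r y) ≠ 0 → y ∈ closedBall x r := by
    intro y hy
    refine hsupp y (left_ne_zero_of_mul hy) ?_
    by_contra hc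
    apply right_ne_zero_of_mul hy
    rw [PS_one hκ hr (not_lt.1 hc), sub_self]
  have hsubρ : closedBall x ρ ⊆ closedBall x r := closedBall_subset_closedBall hρr2
  have hsub : closedBall x r ⊆ closedBall x R := closedBall_subset_closedBall hrR
  have key := master h (F := fun y => S y * (1 - PS κ ρ g x r y))
    (a := fun y => 1 / r * (closedBall x ρ).indicator f y - pr κ ρ g x W m r y) (hSs.mul hP1)
    (fun y hy => hsub (hFne y hy))
    ((((int_cont h.fc x R).indicator isClosed_closedBall.measurableSet).const_mul _).sub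
      (int_cont (pr_cont h hρ r) _ _)) (r := r) (C := 8 / (κ * r)) hrR
  -- the derivative
  have hdv : ∀ y, dv (fun y => S y * (1 - PS κ ρ g x r y)) W y
      = (1 - PS κ ρ g x r y) * dv S W y - S y * (psi κ ρ g x r y * dv (uu κ ρ g x) W y) := by
    intro y
    rw [dv_mul hSs hP1, dv_one_sub hP, PS_dv h.gs hρ]
    ring
  have hpr : ∀ y ∈ closedBall x R, S y * (psi κ ρ g x r y * dv (uu κ ρ g x) W y)
      ≤ pr κ ρ g x W m r y := by
    intro y hy
    rw [pr_eq]
    have a1 := psi_nonneg (ρ := ρ) (g := g) (x := x) hκ hr y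
    have a2 : 0 ≤ dv (uu κ ρ g x) W y + m y := uu_lo0 h hκ hρ hy
    have a3 : 0 ≤ S y := by rw [hS]; exact stp_nonneg _
    have a4 := h.m0 y
    have b1 := mul_le_mul_of_nonneg_right (hST y) (mul_nonneg a1 a2)
    have b2 : 0 ≤ S y * (psi κ ρ g x r y * m y) := mul_nonneg a3 (mul_nonneg a1 a4)
    linarith [mul_add (psi κ ρ g x r y) (dv (uu κ ρ g x) W y) (m y),
      mul_add (S y) (psi κ ρ g x r y * dv (uu κ ρ g x) W y) (psi κ ρ g x r y * m y)]
  have hSlo : ∀ y ∈ closedBall x R, -(8 / (κ * r) * m y) ≤ dv S W y := by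
    intro y hy
    rw [hSd]
    have a1 := ww_lo0 h hκ hρ hy
    have a2 := stp'_nonneg ((ww κ ρ g x y + κ * r / 8) / (κ * r / 4))
    have a3 := stp'_le2 ((ww κ ρ g x y + κ * r / 8) / (κ * r / 4))
    have a4 := h.m0 y
    have a5 : stp' ((ww κ ρ g x y + κ * r / 8) / (κ * r / 4)) / (κ * r / 4) ≤ 8 / (κ * r) := by
      rw [div_le_div_iff₀ (by positivity) (by positivity)]
      have := mul_le_mul_of_nonneg_right a3 (show 0 ≤ κ * r by positivity)
      linarith
    have a6 : 0 ≤ stp' ((ww κ ρ g x y + κ * r / 8) / (κ * r / 4)) / (κ * r / 4) :=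
      div_nonneg a2 (by positivity)
    have b1 := mul_le_mul_of_nonneg_left a1 a6
    have b2 := mul_le_mul_of_nonneg_right a5 a4
    have b3 : stp' ((ww κ ρ g x y + κ * r / 8) / (κ * r / 4)) / (κ * r / 4) * -m y
        = -(stp' ((ww κ ρ g x y + κ * r / 8) / (κ * r / 4)) / (κ * r / 4) * m y) := by ring
    rw [b3] at b1
    exact le_trans (neg_le_neg b2) b1
  have hkey := key (fun y hy => ?_) (fun y hy hyr => ?_)
  · have e : ∫ y in closedBall x R, (1 / r * (closedBall x ρ).indicator f y
        - pr κ ρ g x W m r y) = 1 / r * (∫ y in closedBall x ρ, f y) - AA κ ρ R g x W m r := by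
      rw [integral_sub (((int_cont h.fc x R).indicator
        isClosed_closedBall.measurableSet).const_mul _) (int_cont (pr_cont h hρ r) _ _),
        integral_const_mul, setIntegral_indicator isClosed_closedBall.measurableSet,
        inter_eq_self_of_subset_right (hsubρ.trans hsub)]
      rfl
    rw [e] at hkey
    linarith
  · have hyR := hsub hy
    rw [hdv]
    have a1 := hpr y hyR
    have a2 := hSlo y hyR
    have a3 := h.m0 y
    have a4 := PS_nonneg (κ := κ) (ρ := ρ) (g := g) (x := x) r y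
    have a5 := PS_le_one (κ := κ) (ρ := ρ) (g := g) (x := x) r y
    have a6 : 0 ≤ 8 / (κ * r) * m y := by positivity
    by_cases hyρ : y ∈ closedBall x ρ
    · rw [indicator_of_mem hyρ]
      rw [mem_closedBall, dist_eq_norm] at hyρ
      have c1 : |g y - g x| ≤ 7 / 4 * ρ := (h.lip y x).trans
        ((len_le_norm' _).trans (by linarith))
      have c2 := ds_le_two (x := x) (y := y) hρ.le hyρ
      have c3 := ds_nonneg x ρ y
      have c4 := abs_le.1 c1
      have c5 : κ * ds x ρ y ≤ 1 * (2 * ρ) := mul_le_mul hκ1 c2 c3 zero_le_one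
      have c6 : 0 ≤ κ * ds x ρ y := mul_nonneg hκ.le c3
      have hu : uu κ ρ g x y ≤ κ * r / 64 := by
        unfold uu
        linarith
      have hwl : -(13 / 4 * ρ) ≤ ww κ ρ g x y := by
        unfold ww
        linarith
      have hwu : ww κ ρ g x y ≤ 7 / 4 * ρ := by
        unfold ww
        linarith
      rw [PS_zero hκ hr hu, sub_zero, one_mul, hSd]
      obtain ⟨q, hq⟩ : ∃ q, q = (ww κ ρ g x y + κ * r / 8) / (κ * r / 4) := ⟨_, rfl⟩
      rw [← hq]
      have hκr0 : 0 < κ * r / 4 := by positivity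
      have hq1 : 3 / 8 ≤ q := by
        rw [hq, le_div_iff₀ hκr0]
        linarith
      have hq2 : q ≤ 5 / 8 := by
        rw [hq, div_le_iff₀ hκr0]
        linarith
      have hq3 : 1 ≤ stp' q := by
        rw [stp'_mid (by linarith) (by linarith)]
        nlinarith
      have hq4 := stp'_le2 q
      have d1 := ww_lo h hκ hρ hyR
      have d2 := f_nonneg h hyR
      have d3 : 1 / r * f y ≤ stp' q / (κ * r / 4) * (κ / 4 * f y) := by
        have e1 : stp' q / (κ * r / 4) * (κ / 4 * f y) = stp' q * (1 / r * f y) := by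
          field_simp
        rw [e1]
        exact le_mul_of_one_le_left (by positivity) hq3
      have d4 : stp' q / (κ * r / 4) * (κ / 4 * f y)
          ≤ stp' q / (κ * r / 4) * (dv (ww κ ρ g x) W y + m y) :=
        mul_le_mul_of_nonneg_left d1 (div_nonneg (by linarith) hκr0.le)
      have d5 : stp' q / (κ * r / 4) * m y ≤ 8 / (κ * r) * m y := by
        apply mul_le_mul_of_nonneg_right _ a3
        rw [div_le_div_iff₀ (by positivity) (by positivity)]
        have := mul_le_mul_of_nonneg_right hq4 (show 0 ≤ κ * r by positivity)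
        linarith
      rw [mul_add] at d4
      linarith
    · rw [indicator_of_notMem hyρ, mul_zero, zero_sub]
      have b1 : -(8 / (κ * r) * m y) ≤ (1 - PS κ ρ g x r y) * dv S W y := by
        have e1 : (1 - PS κ ρ g x r y) * -(8 / (κ * r) * m y)
            ≤ (1 - PS κ ρ g x r y) * dv S W y := mul_le_mul_of_nonneg_left a2 (by linarith)
        have e2 : -(8 / (κ * r) * m y) ≤ (1 - PS κ ρ g x r y) * -(8 / (κ * r) * m y) := by
          nlinarith
        exact e2.trans e1
      linarith
  · have hyρ : y ∉ closedBall x ρ := fun hc => hyr (hsubρ hc)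
    rw [indicator_of_notMem hyρ, mul_zero, zero_sub, pr_zero hκ hr hyr, neg_zero]
    have hF0 : (fun y => S y * (1 - PS κ ρ g x r y)) =ᶠ[𝓝 y] fun _ => 0 := by
      filter_upwards [isClosed_closedBall.isOpen_compl.mem_nhds hyr] with z hz
      by_contra hc
      exact hz (hFne z hc)
    unfold dv
    rw [hF0.fderiv_eq]
    simp

theorem lb : StmLB := by
  intro κ ρ R r x f m W g hκ hκ1 hρ h hρr hrR
  have h1 := lb_strong hκ hκ1 hρ h hρr hrR
  have hρr' : 128 * ρ ≤ κ * r := by
    rw [div_mul_eq_mul_div, div_le_iff₀ hκ] at hρr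
    linarith
  have hr : 0 < r := by
    have : 0 < κ * r := by linarith
    exact pos_of_mul_pos_right this hκ.le
  have hκr : κ * r ≤ r := mul_le_of_le_one_left hr.le hκ1
  have hF : 0 ≤ ∫ y in closedBall x ρ, f y :=
    setIntegral_nonneg isClosed_closedBall.measurableSet fun y hy =>
      f_nonneg h (closedBall_subset_closedBall (by linarith) hy)
  have hM : 0 ≤ ∫ y in closedBall x r, m y :=
    setIntegral_nonneg isClosed_closedBall.measurableSet fun y _ => h.m0 y
  have h2 := mul_le_mul_of_nonneg_left h1 (show 0 ≤ (κ * r / 8) ^ 2 by positivity)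
  have e1 : (κ * r / 8) ^ 2 * (1 / r * ∫ y in closedBall x ρ, f y)
      = κ / 64 * (κ * r) * ∫ y in closedBall x ρ, f y := by
    field_simp
    ring
  have e2 : (κ * r / 8) ^ 2 * (AA κ ρ R g x W m r + 8 / (κ * r) * ∫ y in closedBall x r, m y)
      = (κ * r / 8) ^ 2 * AA κ ρ R g x W m r + κ * r / 8 * ∫ y in closedBall x r, m y := by
    field_simp
  rw [e1, e2] at h2
  have h3 : 2 * κ * ρ * ∫ y in closedBall x ρ, f y
      ≤ κ / 64 * (κ * r) * ∫ y in closedBall x ρ, f y := by
    apply mul_le_mul_of_nonneg_right _ hF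
    have := mul_le_mul_of_nonneg_left hρr' (show 0 ≤ κ / 64 by positivity)
    linarith
  have h4 : κ * r / 8 * ∫ y in closedBall x r, m y ≤ κ * r / 4 * ∫ y in closedBall x r, m y := by
    apply mul_le_mul_of_nonneg_right _ hM
    have : 0 < κ * r := by positivity
    linarith
  linarith

/-! ### The cut-off function of a cube -/

/-- The cut-off function on the line. -/
noncomputable def et (s w t : ℝ) : ℝ := stp ((s + w - t) / (2 * w)) * stp ((s + w + t) / (2 * w))

/-- Its derivative. -/
noncomputable def et' (s w t : ℝ) : ℝ :=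
  stp ((s + w - t) / (2 * w)) * (stp' ((s + w + t) / (2 * w)) / (2 * w))
    - stp' ((s + w - t) / (2 * w)) / (2 * w) * stp ((s + w + t) / (2 * w))

lemma et_deriv {s w : ℝ} (t : ℝ) : HasDerivAt (et s w) (et' s w t) t := by
  have h1 : HasDerivAt (fun t : ℝ => (s + w - t) / (2 * w)) (-1 / (2 * w)) t :=
    ((hasDerivAt_id t).const_sub (s + w)).div_const _
  have h2 : HasDerivAt (fun t : ℝ => (s + w + t) / (2 * w)) (1 / (2 * w)) t :=
    ((hasDerivAt_id t).const_add (s + w)).div_const _
  have h3 := (stp_hasDerivAt ((s + w - t) / (2 * w))).comp t h1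
  have h4 := (stp_hasDerivAt ((s + w + t) / (2 * w))).comp t h2
  refine (h3.mul h4).congr_deriv ?_
  simp only [Function.comp]
  unfold et'
  ring

lemma et_smooth {s w : ℝ} : ContDiff ℝ 1 (et s w) := by
  unfold et
  have h1 : ContDiff ℝ 1 (fun t : ℝ => (s + w - t) / (2 * w)) := by fun_prop
  have h2 : ContDiff ℝ 1 (fun t : ℝ => (s + w + t) / (2 * w)) := by fun_prop
  exact (stp_smooth.comp h1).mul (stp_smooth.comp h2)

lemma et_nonneg (s w t : ℝ) : 0 ≤ et s w t := mul_nonneg (stp_nonneg _) (stp_nonneg _)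

lemma et_le_one (s w t : ℝ) : et s w t ≤ 1 :=
  mul_le_one₀ (stp_le_one _) (stp_nonneg _) (stp_le_one _)

lemma et_zero {s w t : ℝ} (hw : 0 < w) (h : s + w ≤ |t|) : et s w t = 0 := by
  unfold et
  rcases le_abs'.1 h with h1 | h1
  · rw [stp_of_le (s := (s + w + t) / (2 * w))
      (div_nonpos_of_nonpos_of_nonneg (by linarith) (by linarith)), mul_zero]
  · rw [stp_of_le (s := (s + w - t) / (2 * w))
      (div_nonpos_of_nonpos_of_nonneg (by linarith) (by linarith)), zero_mul]

lemma et_one {s w t : ℝ} (hw : 0 < w) (h : |t| ≤ s - w) : et s w t = 1 := by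
  unfold et
  have h1 := abs_le.1 h
  rw [stp_of_ge (by rw [le_div_iff₀ (by linarith)]; linarith),
    stp_of_ge (by rw [le_div_iff₀ (by linarith)]; linarith), one_mul]

lemma et'_le {s w t : ℝ} (hw : 0 < w) (hws : w ≤ s) : |et' s w t| ≤ 3 / (4 * w) := by
  have hb : 0 < 2 * w := by linarith
  have key : ∀ q : ℝ, 0 ≤ stp' q / (2 * w) ∧ stp' q / (2 * w) ≤ 3 / (4 * w) := by
    intro q
    refine ⟨div_nonneg (stp'_nonneg q) hb.le, ?_⟩
    rw [div_le_div_iff₀ hb (by positivity)]
    have := mul_le_mul_of_nonneg_right (stp'_le q) (show 0 ≤ 4 * w by linarith)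
    linarith
  unfold et'
  rcases le_total 0 t with h | h
  · have h1 : stp' ((s + w + t) / (2 * w)) = 0 :=
      stp'_of_ge (by rw [le_div_iff₀ hb]; linarith)
    rw [h1, zero_div, mul_zero, zero_sub, abs_neg, abs_mul, abs_of_nonneg (key _).1,
      abs_of_nonneg (stp_nonneg _)]
    calc stp' ((s + w - t) / (2 * w)) / (2 * w) * stp ((s + w + t) / (2 * w))
        ≤ 3 / (4 * w) * 1 := mul_le_mul (key _).2 (stp_le_one _) (stp_nonneg _) (by positivity)
      _ = _ := mul_one _
  · have h1 : stp' ((s + w - t) / (2 * w)) = 0 :=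
      stp'_of_ge (by rw [le_div_iff₀ hb]; linarith)
    rw [h1, zero_div, zero_mul, sub_zero, abs_mul, abs_of_nonneg (key _).1,
      abs_of_nonneg (stp_nonneg _)]
    calc stp ((s + w - t) / (2 * w)) * (stp' ((s + w + t) / (2 * w)) / (2 * w))
        ≤ 1 * (3 / (4 * w)) := mul_le_mul (stp_le_one _) (key _).2 (key _).1 zero_le_one
      _ = _ := one_mul _

/-- The cut-off function of the cube. -/
noncomputable def chi (x : V) (s w : ℝ) (y : V) : ℝ :=
  et s w (y 0 - x 0) * et s w (y 1 - x 1) * et s w (y 2 - x 2)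

lemma chi_smooth (x : V) (s w : ℝ) : ContDiff ℝ 1 (chi x s w) := by
  unfold chi
  have h : ∀ i : Fin 3, ContDiff ℝ 1 (fun y : V => et s w (y i - x i)) := fun i =>
    et_smooth.comp ((contDiff_apply ℝ ℝ i).sub contDiff_const)
  exact ((h 0).mul (h 1)).mul (h 2)

lemma chi_nonneg (x : V) (s w : ℝ) (y : V) : 0 ≤ chi x s w y :=
  mul_nonneg (mul_nonneg (et_nonneg _ _ _) (et_nonneg _ _ _)) (et_nonneg _ _ _)

lemma chi_le_one (x : V) (s w : ℝ) (y : V) : chi x s w y ≤ 1 :=
  mul_le_one₀ (mul_le_one₀ (et_le_one _ _ _) (et_nonneg _ _ _) (et_le_one _ _ _))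
    (et_nonneg _ _ _) (et_le_one _ _ _)

lemma chi_zero {x : V} {s w : ℝ} (hw : 0 < w) {y : V} (h : s + w ≤ ‖y - x‖) :
    chi x s w y = 0 := by
  by_contra hc
  unfold chi at hc
  have h2 := right_ne_zero_of_mul hc
  have h01 := left_ne_zero_of_mul hc
  have h1 := right_ne_zero_of_mul h01
  have h0 := left_ne_zero_of_mul h01
  have key : ∀ i : Fin 3, et s w (y i - x i) ≠ 0 := by
    intro i
    fin_cases i
    · exact h0
    · exact h1
    · exact h2
  have h3 : ‖y - x‖ < s + w := by
    rcases le_or_gt (s + w) 0 with h4 | h4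
    · exfalso
      exact key 0 (et_zero hw (h4.trans (abs_nonneg _)))
    · rw [pi_norm_lt_iff h4]
      intro i
      by_contra hc2
      exact key i (et_zero hw (not_lt.1 hc2))
  linarith

lemma chi_one {x : V} {s w : ℝ} (hw : 0 < w) {y : V} (h : ‖y - x‖ ≤ s - w) :
    chi x s w y = 1 := by
  unfold chi
  have key : ∀ i : Fin 3, et s w (y i - x i) = 1 := fun i =>
    et_one hw ((norm_le_pi_norm (y - x) i).trans h)
  rw [key 0, key 1, key 2]
  norm_num

lemma chi_fd {x : V} {s w : ℝ} (hw : 0 < w) (hws : w ≤ s) (y n : V) :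
    |fderiv ℝ (chi x s w) y n| ≤ 2 / w * len n := by
  have h : ∀ i : Fin 3, HasFDerivAt (fun y : V => et s w (y i - x i))
      (et' s w (y i - x i) • (ContinuousLinearMap.proj i : V →L[ℝ] ℝ)) y := by
    intro i
    have h1 : HasFDerivAt (fun y : V => y i - x i) (ContinuousLinearMap.proj i : V →L[ℝ] ℝ) y :=
      (hasFDerivAt_apply i y).sub_const (x i)
    exact (et_deriv (s := s) (w := w) (y i - x i)).comp_hasFDerivAt y h1
  have h2 := ((h 0).mul (h 1)).mul (h 2)
  have h3 : fderiv ℝ (chi x s w) y n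
      = et s w (y 0 - x 0) * et s w (y 1 - x 1) * (et' s w (y 2 - x 2) * n 2)
        + et s w (y 2 - x 2) * (et s w (y 0 - x 0) * (et' s w (y 1 - x 1) * n 1)
          + et s w (y 1 - x 1) * (et' s w (y 0 - x 0) * n 0)) := by
    have h4 : fderiv ℝ (chi x s w) y = _ := h2.fderiv
    rw [h4]
    simp [smul_eq_mul]
    ring
  rw [h3]
  have hE : ∀ i : Fin 3, |et s w (y i - x i)| ≤ 1 := fun i => by
    rw [abs_of_nonneg (et_nonneg _ _ _)]
    exact et_le_one _ _ _
  have hD : ∀ i : Fin 3, |et' s w (y i - x i) * n i| ≤ 3 / (4 * w) * |n i| := fun i => by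
    rw [abs_mul]
    exact mul_le_mul_of_nonneg_right (et'_le hw hws) (abs_nonneg _)
  have b2 : |et s w (y 0 - x 0) * et s w (y 1 - x 1) * (et' s w (y 2 - x 2) * n 2)|
      ≤ 1 * (3 / (4 * w) * |n 2|) := by
    rw [abs_mul, abs_mul]
    exact mul_le_mul (mul_le_one₀ (hE 0) (abs_nonneg _) (hE 1)) (hD 2) (abs_nonneg _) zero_le_one
  have b1 : |et s w (y 0 - x 0) * (et' s w (y 1 - x 1) * n 1)| ≤ 1 * (3 / (4 * w) * |n 1|) := by
    rw [abs_mul]
    exact mul_le_mul (hE 0) (hD 1) (abs_nonneg _) zero_le_one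
  have b0 : |et s w (y 1 - x 1) * (et' s w (y 0 - x 0) * n 0)| ≤ 1 * (3 / (4 * w) * |n 0|) := by
    rw [abs_mul]
    exact mul_le_mul (hE 1) (hD 0) (abs_nonneg _) zero_le_one
  have b3 : |et s w (y 2 - x 2) * (et s w (y 0 - x 0) * (et' s w (y 1 - x 1) * n 1)
      + et s w (y 1 - x 1) * (et' s w (y 0 - x 0) * n 0))|
      ≤ 1 * (3 / (4 * w) * |n 1| + 3 / (4 * w) * |n 0|) := by
    rw [abs_mul]
    refine mul_le_mul (hE 2) ((abs_add_le _ _).trans ?_) (abs_nonneg _) zero_le_one
    linarith
  have h5 : |n 0| + |n 1| + |n 2| ≤ 7 / 4 * len n := by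
    have h6 : (|n 0| + |n 1| + |n 2|) ^ 2 ≤ (7 / 4 * len n) ^ 2 := by
      rw [mul_pow, len_sq, dot3]
      have e0 := sq_abs (n 0)
      have e1 := sq_abs (n 1)
      have e2 := sq_abs (n 2)
      nlinarith [sq_nonneg (|n 0| - |n 1|), sq_nonneg (|n 0| - |n 2|),
        sq_nonneg (|n 1| - |n 2|)]
    exact abs_le_of_sq_le_sq' h6 (mul_nonneg (by norm_num) (len_nonneg n)) |>.2
  have h7 : 3 / (4 * w) * (|n 0| + |n 1| + |n 2|) ≤ 3 / (4 * w) * (7 / 4 * len n) :=
    mul_le_mul_of_nonneg_left h5 (by positivity)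
  have h8 : 3 / (4 * w) * (7 / 4 * len n) ≤ 2 / w * len n := by
    have e : 2 / w * len n - 3 / (4 * w) * (7 / 4 * len n) = 11 / 16 * (len n / w) := by
      field_simp
      ring
    have : 0 ≤ 11 / 16 * (len n / w) := by
      have := len_nonneg n
      positivity
    linarith
  refine (abs_add_le _ _).trans ?_
  linarith

lemma chi_fd_zero {x : V} {s w : ℝ} (hw : 0 < w) {y : V} (h : y ∉ Shell x s w) (n : V) :
    fderiv ℝ (chi x s w) y n = 0 := by
  have h1 : ¬ |‖y - x‖ - s| ≤ w := h
  rw [abs_le, not_and_or, not_le, not_le] at h1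
  have hc : Continuous fun z : V => ‖z - x‖ := by fun_prop
  rcases h1 with h1 | h1
  · have h2 : chi x s w =ᶠ[𝓝 y] fun _ => 1 := by
      have h3 : ∀ᶠ z in 𝓝 y, ‖z - x‖ < s - w := hc.continuousAt.eventually_lt_const (by linarith)
      filter_upwards [h3] with z hz
      exact chi_one hw hz.le
    rw [h2.fderiv_eq]
    simp
  · have h2 : chi x s w =ᶠ[𝓝 y] fun _ => 0 := by
      have h3 : ∀ᶠ z in 𝓝 y, s + w < ‖z - x‖ := hc.continuousAt.eventually_const_lt (by linarith)
      filter_upwards [h3] with z hz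
      exact chi_zero hw hz.le
    rw [h2.fderiv_eq]
    simp

/-! ### VL-5 -/

theorem fc : StmFC := by
  intro κ ρ R r s w x f m W g hκ hκ1 hρ h hr hrs hw hws hswR
  have hχ := chi_smooth x s w
  have hP := PS_smooth (κ := κ) (x := x) h.gs hρ r
  have hu : Continuous (uu κ ρ g x) := (uu_smooth h.gs hρ).continuous
  have hSm : MeasurableSet (Shell x s w ∩ {y | 0 < uu κ ρ g x y}) := by
    apply MeasurableSet.inter
    · have hc : Continuous fun y : V => |‖y - x‖ - s| := by fun_prop
      exact (isClosed_le hc continuous_const).measurableSet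
    · exact (isOpen_lt continuous_const hu).measurableSet
  have hSsub : Shell x s w ⊆ closedBall x (s + w) := by
    intro y hy
    have h1 : |‖y - x‖ - s| ≤ w := hy
    rw [mem_closedBall, dist_eq_norm]
    linarith [(abs_le.1 h1).2]
  have key := master h (F := fun y => chi x s w y * PS κ ρ g x r y)
    (a := fun y => pr κ ρ g x W m r y
      - 2 / w * (Shell x s w ∩ {y | 0 < uu κ ρ g x y}).indicator f y) (hχ.mul hP)
    (fun y hy => by
      have h1 := left_ne_zero_of_mul hy
      rw [mem_closedBall, dist_eq_norm]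
      by_contra hc
      exact h1 (chi_zero hw (by linarith)))
    ((int_cont (pr_cont h hρ r) _ _).sub (((int_cont h.fc x R).indicator hSm).const_mul _))
    (r := s + w) (C := 256 / (κ * r)) hswR
  have hmain : ∀ y ∈ closedBall x R, pr κ ρ g x W m r y
      - 2 / w * (Shell x s w ∩ {y | 0 < uu κ ρ g x y}).indicator f y
      ≤ dv (fun y => chi x s w y * PS κ ρ g x r y) W y
        + chi x s w y * psi κ ρ g x r y * m y := by
    intro y hy
    rw [dv_mul hχ hP, PS_dv h.gs hρ]
    have a1 := psi_nonneg (ρ := ρ) (g := g) (x := x) hκ hr y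
    have a2 : 0 ≤ dv (uu κ ρ g x) W y + m y := uu_lo0 h hκ hρ hy
    have a3 := chi_nonneg x s w y
    have hf := f_nonneg h hy
    have b1 : pr κ ρ g x W m r y
        ≤ chi x s w y * (psi κ ρ g x r y * (dv (uu κ ρ g x) W y + m y)) := by
      by_cases hp : pr κ ρ g x W m r y = 0
      · rw [hp]
        exact mul_nonneg a3 (mul_nonneg a1 a2)
      · rw [pr_eq] at hp ⊢
        have h1 := left_ne_zero_of_mul hp
        have h2 := left_ne_zero_of_mul (right_ne_zero_of_mul hp)
        have h3 := ds_lt hκ (psi_ne hκ hr h2).2 (TT_ne hκ hr h1)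
        have h4 : chi x s w y = 1 := chi_one hw (by
          have := norm_le_ds x ρ y
          linarith)
        rw [h4]
        exact mul_le_mul_of_nonneg_right (TT_le_one _ _) (mul_nonneg a1 a2)
    have b2 : -(PS κ ρ g x r y * dv (chi x s w) W y)
        ≤ 2 / w * (Shell x s w ∩ {y | 0 < uu κ ρ g x y}).indicator f y := by
      by_cases h1 : y ∈ Shell x s w
      · by_cases h2 : 0 < uu κ ρ g x y
        · rw [indicator_of_mem (show y ∈ Shell x s w ∩ {y | 0 < uu κ ρ g x y} from ⟨h1, h2⟩)]
          have c1 := chi_fd (x := x) hw (by linarith : w ≤ s) y (W y)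
          have c2 : |dv (chi x s w) W y| ≤ 2 / w * f y :=
            c1.trans (mul_le_mul_of_nonneg_left (h.up y hy) (by positivity))
          have c3 := PS_nonneg (κ := κ) (ρ := ρ) (g := g) (x := x) r y
          have c4 := PS_le_one (κ := κ) (ρ := ρ) (g := g) (x := x) r y
          calc -(PS κ ρ g x r y * dv (chi x s w) W y)
              ≤ |PS κ ρ g x r y * dv (chi x s w) W y| := neg_le_abs _
            _ = PS κ ρ g x r y * |dv (chi x s w) W y| := by rw [abs_mul, abs_of_nonneg c3]
            _ ≤ 1 * (2 / w * f y) := mul_le_mul c4 c2 (abs_nonneg _) zero_le_one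
            _ = _ := one_mul _
        · rw [PS_zero hκ hr ((not_lt.1 h2).trans (by positivity)), zero_mul, neg_zero]
          apply mul_nonneg (by positivity)
          exact indicator_nonneg (fun _ _ => by
            rename_i z hz
            exact f_nonneg h (closedBall_subset_closedBall hswR (hSsub hz.1))) y
      · have h3 : dv (chi x s w) W y = 0 := chi_fd_zero hw h1 (W y)
        rw [h3, mul_zero, neg_zero]
        apply mul_nonneg (by positivity)
        exact indicator_nonneg (fun _ _ => by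
          rename_i z hz
          exact f_nonneg h (closedBall_subset_closedBall hswR (hSsub hz.1))) y
    have e1 : chi x s w y * (psi κ ρ g x r y * (dv (uu κ ρ g x) W y + m y))
        = chi x s w y * (psi κ ρ g x r y * dv (uu κ ρ g x) W y)
          + chi x s w y * psi κ ρ g x r y * m y := by ring
    rw [e1] at b1
    linarith
  have hkey := key (fun y hy => ?_) (fun y hy hyr => ?_)
  · have e : ∫ y in closedBall x R, (pr κ ρ g x W m r y
        - 2 / w * (Shell x s w ∩ {y | 0 < uu κ ρ g x y}).indicator f y)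
        = AA κ ρ R g x W m r
          - 2 / w * ∫ y in Shell x s w ∩ {y | 0 < uu κ ρ g x y}, f y := by
      rw [integral_sub (int_cont (pr_cont h hρ r) _ _)
        (((int_cont h.fc x R).indicator hSm).const_mul _), integral_const_mul,
        setIntegral_indicator hSm, inter_eq_self_of_subset_right]
      · rfl
      · exact (inter_subset_left.trans hSsub).trans (closedBall_subset_closedBall hswR)
    rw [e] at hkey
    linarith
  · refine (hmain y (closedBall_subset_closedBall hswR hy)).trans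
      (add_le_add le_rfl (mul_le_mul_of_nonneg_right ?_ (h.m0 y)))
    have a1 := psi_nonneg (ρ := ρ) (g := g) (x := x) hκ hr y
    have a2 := psi_le (ρ := ρ) (g := g) (x := x) hκ hr y
    have a3 : chi x s w y * psi κ ρ g x r y ≤ 1 * psi κ ρ g x r y :=
      mul_le_mul_of_nonneg_right (chi_le_one _ _ _ _) a1
    have a4 : 128 / (κ * r) ≤ 256 / (κ * r) :=
      div_le_div_of_nonneg_right (by norm_num) (by positivity)
    linarith
  · refine (hmain y hy).trans (le_of_eq ?_)
    have h0 : chi x s w y = 0 := chi_zero hw (by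
      rw [mem_closedBall, dist_eq_norm, not_le] at hyr
      exact hyr.le)
    rw [h0]
    ring

end

end Pool.Agent.H2VL
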