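import Pool.Agent.H2VL.Bas
import Pool.Agent.Q85.CL.FluxL
import Pool.Agent.Q151.CC.Double

/-!
Project VL, part 13: regularisation of a function which increases along the arcs.
-/

set_option autoImplicit false

open MeasureTheory Set Metric Filter Topology
open scoped ContDiff NNReal
open H459R3.NS Pool.Agent.W268.NS Pool.Agent.Q67.VD

namespace Pool.Agent.H2VL

open Pool.Agent.Q85.CC Pool.Agent.Q85.CL Pool.Agent.Q151.CC Pool.Agent.Q85.VL

/-- The theorem of Picard and Lindelöf, with the ball in which the curve stays. -/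
lemma pl_mem {E : Type*} [NormedAddCommGroup E] [NormedSpace ℝ E] [CompleteSpace E]
    {f : ℝ → E → E} {tmin tmax : ℝ} {t₀ : Icc tmin tmax} {x₀ x : E} {a r L K : ℝ≥0}
    (hf : IsPicardLindelof f t₀ x₀ a r L K) (hx : x ∈ closedBall x₀ r) :
    ∃ α : ℝ → E, α t₀ = x ∧
      (∀ t ∈ Icc tmin tmax, HasDerivWithinAt α (f t (α t)) (Icc tmin tmax) t) ∧
      ∀ t, α t ∈ closedBall x₀ a := by
  obtain ⟨α, hα⟩ := ODE.FunSpace.exists_isFixedPt_next hf hx
  refine ⟨α.compProj, by rw [ODE.FunSpace.compProj_val, ← hα, ODE.FunSpace.next_apply₀],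
    fun t ht ↦ ?_, fun t => α.compProj_mem_closedBall hf.mul_max_le⟩
  apply ODE.hasDerivWithinAt_picard_Icc t₀.2 hf.continuousOn_uncurry
    α.continuous_compProj.continuousOn (fun _ ht' ↦ α.compProj_mem_closedBall hf.mul_max_le)
    x ht |>.congr_of_mem _ ht
  intro t' ht'
  nth_rw 1 [← hα]
  rw [ODE.FunSpace.compProj_of_mem ht', ODE.FunSpace.next_apply]

/-- A curve of a Lipschitz field, inside of a ball. -/
lemma arc_exists {N : V → V} {y : V} {δ : ℝ} (hδ : 0 < δ) {K : ℝ≥0}
    (hL : LipschitzOnWith K N (closedBall y δ)) (hN : ∀ z ∈ closedBall y δ, ‖N z‖ ≤ 1) :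
    ∃ γ : ℝ → V, γ 0 = y ∧ (∀ s ∈ Icc 0 δ, HasDerivWithinAt γ (N (γ s)) (Icc 0 δ) s) ∧
      ∀ s, γ s ∈ closedBall y δ := by
  obtain ⟨D, hD⟩ : ∃ D : ℝ≥0, (D : ℝ) = δ := ⟨⟨δ, hδ.le⟩, rfl⟩
  have h0 : (0 : ℝ) ∈ Icc 0 δ := ⟨le_rfl, hδ.le⟩
  have hpl : IsPicardLindelof (fun _ : ℝ => N) (tmin := 0) (tmax := δ)
      ⟨0, h0⟩ y D 0 1 K := by
    refine IsPicardLindelof.of_time_independent (fun z hz => ?_) ?_ ?_
    · rw [hD] at hz
      simpa using hN z hz
    · rw [hD]
      exact hL
    · rw [hD]
      simp [hδ.le]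
  obtain ⟨γ, h1, h2, h3⟩ := pl_mem hpl (mem_closedBall_self le_rfl)
  rw [hD] at h3
  exact ⟨γ, h1, h2, h3⟩

/-- The directions of two vectors. -/
lemma dir_diff (a b : V) (hb : 1 ≤ len b) (ha : 0 < len a) :
    len ((len a)⁻¹ • a - (len b)⁻¹ • b) ≤ 2 * len (a - b) := by
  have hb0 : 0 < len b := by linarith
  have e : (len a)⁻¹ • a - (len b)⁻¹ • b
      = ((len a)⁻¹ - (len b)⁻¹) • a + (len b)⁻¹ • (a - b) := by
    rw [sub_smul, smul_sub]
    abel
  rw [e]
  have h1 := len_add_le (((len a)⁻¹ - (len b)⁻¹) • a) ((len b)⁻¹ • (a - b))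
  rw [len_smul, len_smul] at h1
  have h2 : |(len a)⁻¹ - (len b)⁻¹| * len a = |len b - len a| / len b := by
    have e2 : (len a)⁻¹ - (len b)⁻¹ = (len b - len a) / (len a * len b) := by
      field_simp
    rw [e2, abs_div, abs_of_pos (mul_pos ha hb0)]
    field_simp
  have h3 : |len b - len a| ≤ len (a - b) := by
    rw [abs_le]
    have h4 := len_add_le (a - b) b
    have h5 := len_add_le (b - a) a
    rw [sub_add_cancel] at h4 h5
    rw [len_sub_comm b a] at h5
    constructor <;> linarith
  have h6 : |len b - len a| / len b ≤ len (a - b) := by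
    rw [div_le_iff₀ hb0]
    have := len_nonneg (a - b)
    nlinarith
  have h7 : |(len b)⁻¹| * len (a - b) ≤ len (a - b) := by
    rw [abs_of_pos (inv_pos.2 hb0)]
    have h8 : (len b)⁻¹ ≤ 1 := inv_le_one_of_one_le₀ hb
    exact mul_le_of_le_one_left (len_nonneg _) h8
  rw [h2] at h1
  linarith

/-- An orientation is constant on a connected set. -/
lemma orient_const {θ : V → ℝ} (hθ : ∀ y, θ y = 1 ∨ θ y = -1) {S : Set V} (hS : IsPreconnected S)
    (hc : ContinuousOn θ S) {y z : V} (hy : y ∈ S) (hz : z ∈ S) : θ z = θ y := by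
  by_contra hne
  have key : (0 : ℝ) ∈ θ '' S := by
    rcases hθ y with h1 | h1 <;> rcases hθ z with h2 | h2
    · exact absurd (h2.trans h1.symm) hne
    · have := hS.intermediate_value hz hy hc
      rw [h1, h2] at this
      exact this ⟨by norm_num, by norm_num⟩
    · have := hS.intermediate_value hy hz hc
      rw [h1, h2] at this
      exact this ⟨by norm_num, by norm_num⟩
    · exact absurd (h2.trans h1.symm) hne
  obtain ⟨w, -, hw⟩ := key
  rcases hθ w with h | h <;> rw [h] at hw <;> norm_num at hw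

/-- Mean value inequality for the Euclidean length. -/
lemma len_mvt {γ N : ℝ → V} {n : V} {s c : ℝ} (hs : 0 ≤ s)
    (hγ : ∀ t ∈ Icc 0 s, HasDerivWithinAt γ (N t) (Icc 0 s) t)
    (hN : ∀ t ∈ Icc 0 s, len (N t - n) ≤ c) : len (γ s - γ 0 - s • n) ≤ c * s := by
  obtain ⟨d, hd⟩ : ∃ d, d = γ s - γ 0 - s • n := ⟨_, rfl⟩
  rw [← hd]
  have hder : ∀ t ∈ Icc 0 s, HasDerivWithinAt (fun t => len d * c * t - d ⬝ᵥ (γ t - t • n))
      (len d * c - d ⬝ᵥ (N t - n)) (Icc 0 s) t := by
    intro t ht
    have h1 : HasDerivWithinAt (fun t => γ t - t • n) (N t - n) (Icc 0 s) t := by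
      have h2 : HasDerivWithinAt (fun t : ℝ => t • n) ((1 : ℝ) • n) (Icc 0 s) t :=
        (hasDerivAt_id t).hasDerivWithinAt.smul_const n
      rw [one_smul] at h2
      exact (hγ t ht).sub h2
    have h3 : HasDerivWithinAt (fun t => d ⬝ᵥ (γ t - t • n)) (d ⬝ᵥ (N t - n)) (Icc 0 s) t := by
      rw [hasDerivWithinAt_pi] at h1
      unfold dotProduct
      exact HasDerivWithinAt.fun_sum fun i _ => (h1 i).const_mul (d i)
    have h4 : HasDerivWithinAt (fun t : ℝ => len d * c * t) (len d * c) (Icc 0 s) t := by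
      simpa using ((hasDerivAt_id t).const_mul (len d * c)).hasDerivWithinAt
    exact h4.sub h3
  have hmono : MonotoneOn (fun t => len d * c * t - d ⬝ᵥ (γ t - t • n)) (Icc 0 s) := by
    refine monotoneOn_of_deriv_nonneg (convex_Icc _ _)
      (fun t ht => (hder t ht).continuousWithinAt) ?_ ?_
    · intro t ht
      rw [interior_Icc] at ht
      exact ((hder t (Ioo_subset_Icc_self ht)).hasDerivAt
        (Icc_mem_nhds ht.1 ht.2)).differentiableAt.differentiableWithinAt
    · intro t ht
      rw [interior_Icc] at ht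
      have ht' := Ioo_subset_Icc_self ht
      rw [((hder t ht').hasDerivAt (Icc_mem_nhds ht.1 ht.2)).deriv, sub_nonneg]
      exact (dot_le _ _).trans (mul_le_mul_of_nonneg_left (hN t ht') (len_nonneg d))
  have h1 := hmono (left_mem_Icc.2 hs) (right_mem_Icc.2 hs) hs
  simp only [mul_zero, zero_smul, sub_zero, zero_sub] at h1
  have h2 : d ⬝ᵥ (γ s - s • n) - d ⬝ᵥ γ 0 = len d * len d := by
    rw [← sq, len_sq, ← dotProduct_sub]
    congr 1
    rw [hd]
    abel
  rcases (len_nonneg d).eq_or_lt with h3 | h3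
  · rw [← h3]
    have h4 := hN 0 (left_mem_Icc.2 hs)
    exact mul_nonneg ((len_nonneg _).trans h4) hs
  · have h5 : len d * len d ≤ len d * (c * s) := by linarith
    exact le_of_mul_le_mul_left h5 h3

/-- The choice of the scale of the regularisation. -/
lemma scale_exists {v : V → V} {m : V → ℝ} (hv : SM v) (hm : Continuous m) (a : V) {R ε : ℝ}
    (hR : 0 < R) (hε : 0 < ε) : ∃ δ : ℝ, 0 < δ ∧ 2 * δ ≤ R / 2 ∧
      ∀ y ∈ closedBall a R, ∀ z ∈ closedBall a R, ‖z - y‖ ≤ 2 * δ →
        |om v z - om v y| ≤ 1 / 12 ∧ |m z - m y| ≤ 1 / 12 ∧ len (vort v z - vort v y) ≤ ε / 8 := by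
  have hW : Continuous (vort v) := (vort_df hv).cont
  have hcomp : IsCompact (closedBall a R) := isCompact_closedBall a R
  have h1 := hcomp.uniformContinuousOn_of_continuous (om_contL hv).continuousOn
  have h2 := hcomp.uniformContinuousOn_of_continuous hm.continuousOn
  have h3 := hcomp.uniformContinuousOn_of_continuous hW.continuousOn
  rw [Metric.uniformContinuousOn_iff] at h1 h2 h3
  obtain ⟨δ1, hδ1, h1⟩ := h1 (1 / 12) (by norm_num)
  obtain ⟨δ2, hδ2, h2⟩ := h2 (1 / 12) (by norm_num)
  obtain ⟨δ3, hδ3, h3⟩ := h3 (ε / 14) (by positivity)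
  obtain ⟨δ, hδd⟩ : ∃ δ, δ = min (min δ1 δ2) (min δ3 R) / 4 := ⟨_, rfl⟩
  have hmin : 0 < min (min δ1 δ2) (min δ3 R) := by positivity
  have m1 : min (min δ1 δ2) (min δ3 R) ≤ δ1 := (min_le_left _ _).trans (min_le_left _ _)
  have m2 : min (min δ1 δ2) (min δ3 R) ≤ δ2 := (min_le_left _ _).trans (min_le_right _ _)
  have m3 : min (min δ1 δ2) (min δ3 R) ≤ δ3 := (min_le_right _ _).trans (min_le_left _ _)
  have m4 : min (min δ1 δ2) (min δ3 R) ≤ R := (min_le_right _ _).trans (min_le_right _ _)
  refine ⟨δ, by rw [hδd]; positivity, by rw [hδd]; linarith, ?_⟩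
  intro y hy z hz hyz
  have hd : dist z y < min (min δ1 δ2) (min δ3 R) := by
    rw [dist_eq_norm]
    rw [hδd] at hyz
    linarith
  refine ⟨?_, ?_, ?_⟩
  · have := h1 z hz y hy (hd.trans_le m1)
    rw [Real.dist_eq] at this
    exact this.le
  · have := h2 z hz y hy (hd.trans_le m2)
    rw [Real.dist_eq] at this
    exact this.le
  · have := h3 z hz y hy (hd.trans_le m3)
    rw [dist_eq_norm] at this
    have h4 := len_le_norm' (vort v z - vort v y)
    linarith

/-- The function increases in the direction of the field, near a point with a large vorticity. -/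
lemma step_up {v : V → V} {θ m g : V → ℝ} {a : V} {R ε δ : ℝ} (hv : SM v) (hε : 0 < ε)
    (hm0 : ∀ y, 0 ≤ m y) (hθ : Orient θ a R (vort v)) (hg : ∀ y y', |g y - g y'| ≤ len (y - y'))
    (harc : ∀ p q l, Arc (fun y => θ y • vort v y) {y | ‖y - a‖ ≤ R ∧ m y < om v y} p q l →
      g p + ε * l ≤ g q) (hδ : 0 < δ) (hδR : 2 * δ ≤ R / 2)
    (hsc : ∀ y ∈ closedBall a R, ∀ z ∈ closedBall a R, ‖z - y‖ ≤ 2 * δ →
        |om v z - om v y| ≤ 1 / 12 ∧ |m z - m y| ≤ 1 / 12 ∧ len (vort v z - vort v y) ≤ ε / 8)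
    {y : V} (hy : ‖y - a‖ ≤ R / 2) (hom : 4 / 3 * (m y + 1) < om v y) {y' : V}
    (hy' : ‖y' - y‖ ≤ δ) {s : ℝ} (hs : 0 < s) (hsδ : s ≤ δ) :
    g y' + 3 / 4 * ε * s ≤ g (y' + s • (θ y • (om v y)⁻¹ • vort v y)) := by
  have hW : Continuous (vort v) := (vort_df hv).cont
  have hyR : y ∈ closedBall a R := by
    rw [mem_closedBall, dist_eq_norm]
    linarith
  have hsub : closedBall y (2 * δ) ⊆ closedBall a R := by
    apply closedBall_subset_closedBall'
    rw [dist_eq_norm]
    linarith
  have hm0y := hm0 y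
  -- the vorticity is large in the ball
  have hbig : ∀ z ∈ closedBall y (2 * δ), 1 < om v z ∧ m z < om v z := by
    intro z hz
    have hz2 : ‖z - y‖ ≤ 2 * δ := by rwa [mem_closedBall, dist_eq_norm] at hz
    obtain ⟨h1, h2, -⟩ := hsc y hyR z (hsub hz) hz2
    rw [abs_le] at h1 h2
    constructor <;> linarith
  have hne : ∀ z ∈ closedBall y (2 * δ), vort v z ≠ 0 := by
    intro z hz h0
    have h1 := (hbig z hz).1
    have h2 : om v z = 0 := by
      unfold om len
      rw [h0]
      simp
    linarith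
  have hθc : ∀ z ∈ closedBall y (2 * δ), θ z = θ y := by
    intro z hz
    refine orient_const hθ.1 (convex_closedBall y (2 * δ)).isPreconnected
      (hθ.2.mono fun w hw => ⟨?_, hne w hw⟩) (mem_closedBall_self (by positivity)) hz
    have := hsub hw
    rwa [mem_closedBall, dist_eq_norm] at this
  have hθ1 : |θ y| = 1 := by
    rcases hθ.1 y with h | h <;> rw [h] <;> simp
  -- the direction field
  obtain ⟨N, hN⟩ : ∃ N : V → V, N = fun z => θ y • (om v z)⁻¹ • vort v z := ⟨_, rfl⟩
  have hNlen : ∀ z ∈ closedBall y (2 * δ), len (N z) = 1 := by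
    intro z hz
    have h1 := (hbig z hz).1
    rw [hN]
    simp only
    rw [len_smul, hθ1, one_mul, len_smul, abs_of_pos (inv_pos.2 (by linarith))]
    exact inv_mul_cancel₀ (show om v z ≠ 0 by linarith)
  have hNdiff : ∀ z ∈ closedBall y (2 * δ), len (N z - N y) ≤ ε / 4 := by
    intro z hz
    have hz2 : ‖z - y‖ ≤ 2 * δ := by rwa [mem_closedBall, dist_eq_norm] at hz
    obtain ⟨-, -, h3⟩ := hsc y hyR z (hsub hz) hz2
    have h4 := (hbig z hz).1
    have h5 := (hbig y (mem_closedBall_self (by positivity))).1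
    have h6 := dir_diff (vort v z) (vort v y) h5.le (show 0 < len (vort v z) from by
      have : len (vort v z) = om v z := rfl
      linarith)
    have e : N z - N y = θ y • ((len (vort v z))⁻¹ • vort v z - (len (vort v y))⁻¹ • vort v y) := by
      rw [hN, smul_sub]
      rfl
    rw [e, len_smul, hθ1, one_mul]
    linarith
  -- it is Lipschitz
  have hsub' : closedBall y' δ ⊆ closedBall y (2 * δ) := by
    apply closedBall_subset_closedBall'
    rw [dist_eq_norm]
    linarith
  have hNs : ContDiffOn ℝ 1 N (closedBall y' δ) := by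
    rw [hN]
    have h1 : ContDiff ℝ 1 (vort v) := contDiff_pi.2 (vort_df hv).smooth
    have h2 : ContDiffOn ℝ 1 (om v) (closedBall y' δ) := by
      have e : om v = fun z => √(vort v z 0 * vort v z 0 + vort v z 1 * vort v z 1
          + vort v z 2 * vort v z 2) := by
        funext z
        unfold om len
        rw [dot3]
      rw [e]
      have h3 : ∀ i, ContDiff ℝ 1 fun z => vort v z i := (vort_df hv).smooth
      refine ContDiffOn.sqrt ((((h3 0).mul (h3 0)).add ((h3 1).mul (h3 1))).add
        ((h3 2).mul (h3 2))).contDiffOn fun z hz h0 => ?_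
      have h4 := (hbig z (hsub' hz)).1
      rw [e] at h4
      simp only at h4
      rw [h0, Real.sqrt_zero] at h4
      linarith
    have h3 : ContDiffOn ℝ 1 (fun z => (om v z)⁻¹) (closedBall y' δ) := h2.inv fun z hz => by
      have := (hbig z (hsub' hz)).1
      linarith
    have h4 : ContDiffOn ℝ 1 (fun z => (om v z)⁻¹ • vort v z) (closedBall y' δ) :=
      h3.smul h1.contDiffOn
    exact h4.const_smul (θ y)
  obtain ⟨K, hK⟩ := hNs.exists_lipschitzOnWith one_ne_zero (convex_closedBall y' δ)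
    (isCompact_closedBall y' δ)
  obtain ⟨γ, hγ0, hγd, hγm⟩ := arc_exists hδ hK fun z hz => by
    rw [← hNlen z (hsub' hz)]
    exact norm_le_len _
  -- the arc
  have hγ2 : ∀ t, γ t ∈ closedBall y (2 * δ) := fun t => hsub' (hγm t)
  have hder : ∀ t ∈ Icc 0 s, HasDerivWithinAt γ (N (γ t)) (Icc 0 s) t := fun t ht =>
    (hγd t ⟨ht.1, ht.2.trans hsδ⟩).mono (Icc_subset_Icc_right hsδ)
  have h1 : g y' + ε * s ≤ g (γ s) := by
    refine harc y' (γ s) s ⟨hs, γ, hγ0, rfl, fun t ht => ⟨⟨?_, (hbig _ (hγ2 t)).2⟩, ?_⟩⟩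
    · have := hsub (hγ2 t)
      rwa [mem_closedBall, dist_eq_norm] at this
    · refine (hder t ht).congr_deriv ?_
      rw [hN]
      simp only
      rw [hθc _ (hγ2 t), len_smul, hθ1, one_mul, smul_comm]
      rfl
  have h2 := len_mvt (n := N y) (c := ε / 4) hs.le hder fun t _ => hNdiff _ (hγ2 t)
  rw [hγ0] at h2
  have h3 := (abs_le.1 (hg (γ s) (y' + s • N y))).2
  have e : γ s - (y' + s • N y) = γ s - y' - s • N y := by abel
  rw [e] at h3
  have h4 : N y = θ y • (om v y)⁻¹ • vort v y := by rw [hN]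
  rw [← h4]
  linarith

theorem mol : StmMol := by
  intro v θ m g a R ε hv hR hε hε1 hm hm0 hθ hg harc
  obtain ⟨δ, hδ, hδR, hsc⟩ := scale_exists hv hm a hR hε
  -- the mollifier
  obtain ⟨φ, hφd⟩ : ∃ φ : ContDiffBump (0 : V), φ = ⟨δ / 2, δ, by positivity, by linarith⟩ :=
    ⟨_, rfl⟩
  have hrout : φ.rOut = δ := by rw [hφd]
  obtain ⟨k, hk⟩ : ∃ k : V → ℝ, k = φ.normed volume := ⟨_, rfl⟩
  have hk0 : ∀ z, 0 ≤ k z := fun z => by rw [hk]; exact φ.nonneg_normed z
  have hk1 : ∫ z, k z = 1 := by rw [hk]; exact φ.integral_normed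
  have hksupp : ∀ z, k z ≠ 0 → ‖z‖ ≤ δ := by
    intro z hz
    have h1 : z ∈ Function.support (φ.normed volume) := by rw [← hk]; exact hz
    rw [φ.support_normed_eq, hrout, mem_ball_zero_iff] at h1
    exact h1.le
  have hks : ContDiff ℝ ∞ k := by rw [hk]; exact φ.contDiff_normed
  have hkc : HasCompactSupport k := by rw [hk]; exact φ.hasCompactSupport_normed
  have hgc : Continuous g := by
    have h1 : LipschitzWith 2 g := by
      refine LipschitzWith.of_dist_le_mul fun y z => ?_
      rw [Real.dist_eq, dist_eq_norm]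
      have h2 := len_le_norm' (y - z)
      have h3 := norm_nonneg (y - z)
      refine (hg y z).trans (h2.trans ?_)
      simp only [NNReal.coe_ofNat]
      linarith
    exact h1.continuous
  obtain ⟨G, hG⟩ : ∃ G : V → ℝ, G = fun y => ∫ z, k z * g (y - z) := ⟨_, rfl⟩
  have hint : ∀ y, Integrable fun z => k z * g (y - z) := fun y =>
    ((hks.continuous).mul (hgc.comp (continuous_const.sub continuous_id))).integrable_of_hasCompactSupport
      hkc.mul_right
  have hGs : ContDiff ℝ 1 G := by
    have h1 := hkc.contDiff_convolution_left (ContinuousLinearMap.lsmul ℝ ℝ) (μ := volume)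
      (hks.of_le (show (1 : WithTop ℕ∞) ≤ ∞ by simp)) hgc.locallyIntegrable
    rw [hG]
    exact h1
  have hGl : ∀ y y', |G y - G y'| ≤ len (y - y') := by
    intro y y'
    have e : G y - G y' = ∫ z, k z * (g (y - z) - g (y' - z)) := by
      rw [hG]
      simp only
      rw [← integral_sub (hint y) (hint y')]
      congr 1
      funext z
      ring
    rw [e]
    calc |∫ z, k z * (g (y - z) - g (y' - z))| ≤ ∫ z, |k z * (g (y - z) - g (y' - z))| :=
          abs_integral_le_integral_abs
      _ ≤ ∫ z, k z * len (y - y') := by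
          refine integral_mono_of_nonneg (Eventually.of_forall fun z => abs_nonneg _) ?_
            (Eventually.of_forall fun z => ?_)
          · exact (hks.continuous.integrable_of_hasCompactSupport hkc).mul_const _
          · show |k z * (g (y - z) - g (y' - z))| ≤ k z * len (y - y')
            rw [abs_mul, abs_of_nonneg (hk0 z)]
            refine mul_le_mul_of_nonneg_left ?_ (hk0 z)
            have := hg (y - z) (y' - z)
            rwa [sub_sub_sub_cancel_right] at this
      _ = len (y - y') := by rw [integral_mul_const, hk1, one_mul]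
  refine ⟨G, hGs, hGl, ?_⟩
  intro y hy
  have hlen : len (θ y • vort v y) = om v y := by
    rw [len_smul]
    rcases hθ.1 y with h | h <;> rw [h] <;> simp <;> rfl
  have hmy := hm0 y
  have hup := abs_le.1 (fderiv_le_len (hGs.differentiable one_ne_zero y) hGl (θ y • vort v y))
  rw [hlen] at hup
  have hom0 : 0 ≤ om v y := len_nonneg _
  rcases le_or_gt (om v y) (4 / 3 * (m y + 1)) with hc | hc
  · have h1 : ε / 2 * om v y ≤ 1 / 2 * om v y :=
      mul_le_mul_of_nonneg_right (by linarith) hom0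
    linarith [hup.1]
  · obtain ⟨n, hn⟩ : ∃ n, n = θ y • (om v y)⁻¹ • vort v y := ⟨_, rfl⟩
    have hompos : 0 < om v y := by linarith
    -- the increase of the regularised function
    have hinc : ∀ s, 0 < s → s ≤ δ → G y + 3 / 4 * ε * s ≤ G (y + s • n) := by
      intro s hs hsδ
      have e1 : G y + 3 / 4 * ε * s = ∫ z, k z * (g (y - z) + 3 / 4 * ε * s) := by
        have e2 : (fun z => k z * (g (y - z) + 3 / 4 * ε * s))
            = fun z => k z * g (y - z) + k z * (3 / 4 * ε * s) := by
          funext z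
          ring
        rw [e2, integral_add (hint y)
          ((hks.continuous.integrable_of_hasCompactSupport hkc).mul_const _), integral_mul_const,
          hk1, one_mul, hG]
      rw [e1, hG]
      simp only
      refine integral_mono ?_ (hint _) fun z => ?_
      · have e2 : (fun z => k z * (g (y - z) + 3 / 4 * ε * s))
            = fun z => k z * g (y - z) + k z * (3 / 4 * ε * s) := by
          funext z
          ring
        rw [e2]
        exact (hint y).add ((hks.continuous.integrable_of_hasCompactSupport hkc).mul_const _)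
      · show k z * (g (y - z) + 3 / 4 * ε * s) ≤ k z * g (y + s • n - z)
        by_cases hz : k z = 0
        · rw [hz, zero_mul, zero_mul]
        · refine mul_le_mul_of_nonneg_left ?_ (hk0 z)
          have h1 := step_up hv hε hm0 hθ hg harc hδ hδR hsc hy hc (y' := y - z)
            (by
              have e3 : y - z - y = -z := by abel
              rw [e3, norm_neg]
              exact hksupp z hz) hs hsδ
          rw [← hn] at h1
          have e4 : y - z + s • n = y + s • n - z := by abel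
          rwa [e4] at h1
    have hder : HasDerivAt (fun s : ℝ => G (y + s • n)) (fderiv ℝ G y n) 0 := by
      have h2 : HasDerivAt (fun t : ℝ => y + t • n) n 0 := by
        simpa using ((hasDerivAt_id (0 : ℝ)).smul_const n).const_add y
      have h3 : HasFDerivAt G (fderiv ℝ G y) (y + (0 : ℝ) • n) := by
        rw [zero_smul, add_zero]
        exact (hGs.differentiable one_ne_zero y).hasFDerivAt
      exact h3.comp_hasDerivAt (0 : ℝ) h2
    have hlow : 3 / 4 * ε ≤ fderiv ℝ G y n := by
      have h1 := hasDerivAt_iff_tendsto_slope_zero.1 hder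
      have h2 := h1.mono_left (nhdsWithin_mono (0 : ℝ) (show Ioi (0 : ℝ) ⊆ {0}ᶜ from fun t ht =>
        ne_of_gt ht))
      refine ge_of_tendsto h2 ?_
      filter_upwards [Ioc_mem_nhdsGT hδ] with t ht
      rw [zero_add, zero_smul, add_zero, smul_eq_mul, inv_mul_eq_div, le_div_iff₀ ht.1]
      have := hinc t ht.1 ht.2
      linarith
    have e5 : θ y • vort v y = om v y • n := by
      rw [hn, smul_comm (om v y), smul_smul (om v y), mul_inv_cancel₀ hompos.ne', one_smul]
    rw [e5, map_smul, smul_eq_mul]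
    have h6 := mul_le_mul_of_nonneg_left hlow hompos.le
    have h7 : ε / 2 * om v y ≤ om v y * (3 / 4 * ε) := by
      have : 0 ≤ om v y * ε := by positivity
      linarith
    linarith

end Pool.Agent.H2VL
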