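import Pool.Agent.H2VL.Lb

/-!
Project VL, part 7: the bound of the integrals over small cubes.
-/

set_option autoImplicit false

open MeasureTheory Set Metric Filter Topology
open scoped ContDiff
open H459R3.NS Pool.Agent.W268.NS Pool.Agent.Q67.VD

namespace Pool.Agent.H2VL

open Pool.Agent.Q85.CC Pool.Agent.Q85.CL Pool.Agent.Q151.CC Pool.Agent.Q85.VL

section

variable {κ ρ R : ℝ} {x : V} {f m : V → ℝ} {W : V → V} {g : V → ℝ}

lemma int_m_nonneg (h : LF κ R x f m W g) (z : V) (s : ℝ) : 0 ≤ ∫ y in closedBall z s, m y :=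
  setIntegral_nonneg isClosed_closedBall.measurableSet fun y _ => h.m0 y

lemma int_m_mono (h : LF κ R x f m W g) (z : V) {s s' : ℝ} (hs : s ≤ s') :
    ∫ y in closedBall z s, m y ≤ ∫ y in closedBall z s', m y :=
  setIntegral_mono_set (int_cont h.mc z s') (Eventually.of_forall fun y => h.m0 y)
    (closedBall_subset_closedBall hs).eventuallyLE

lemma int_f_mono (h : LF κ R x f m W g) {s s' : ℝ} (hs : s ≤ s') (hsR : s' ≤ R) :
    ∫ y in closedBall x s, f y ≤ ∫ y in closedBall x s', f y := by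
  refine setIntegral_mono_set (int_cont h.fc x s') ?_ (closedBall_subset_closedBall hs).eventuallyLE
  refine (ae_restrict_iff' isClosed_closedBall.measurableSet).2 (Eventually.of_forall fun y hy => ?_)
  exact f_nonneg h (closedBall_subset_closedBall hsR hy)

lemma geo_pos (R₀ : ℝ) (hR₀ : 0 < R₀) (n : ℕ) : 0 < (1 / 256 : ℝ) ^ n * R₀ := by positivity

lemma geo_le (R₀ : ℝ) (hR₀ : 0 < R₀) (n : ℕ) : (1 / 256 : ℝ) ^ n * R₀ ≤ R₀ :=
  mul_le_of_le_one_left hR₀.le (pow_le_one₀ (by norm_num) (by norm_num))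

/-- The terms of the discrete Kato condition. -/
noncomputable def kt (R₀ : ℝ) (x : V) (m : V → ℝ) (j : ℕ) : ℝ :=
  ((1 / 256 : ℝ) ^ j * R₀)⁻¹ * ∫ y in closedBall x ((1 / 256 : ℝ) ^ j * R₀), m y

lemma kt_nonneg (h : LF κ R x f m W g) {R₀ : ℝ} (hR₀ : 0 < R₀) (j : ℕ) : 0 ≤ kt R₀ x m j :=
  mul_nonneg (inv_nonneg.2 (geo_pos R₀ hR₀ j).le) (int_m_nonneg h _ _)

lemma chain_step (hκ : 0 < κ) (hκ1 : κ ≤ 1) (hρ : 0 < ρ) (h : LF κ R x f m W g) {R₀ : ℝ}
    (hR₀ : 0 < R₀) (hR₀R : R₀ ≤ R) (n : ℕ) :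
    AA κ ρ R g x W m ((1 / 256 : ℝ) ^ (n + 1) * R₀)
      ≤ AA κ ρ R g x W m ((1 / 256 : ℝ) ^ n * R₀) + 65536 / κ * kt R₀ x m n := by
  have hp := geo_pos R₀ hR₀ n
  have e : (1 / 256 : ℝ) ^ (n + 1) * R₀ = (1 / 256 : ℝ) ^ n * R₀ / 256 := by
    rw [pow_succ]
    ring
  have h1 := cmp κ ρ R ((1 / 256 : ℝ) ^ n * R₀) ((1 / 256 : ℝ) ^ (n + 1) * R₀) x f m W g hκ hκ1 hρ
    h (geo_pos R₀ hR₀ (n + 1)) (by rw [e]; linarith) ((geo_le R₀ hR₀ n).trans hR₀R)
  refine h1.trans (le_of_eq ?_)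
  congr 1
  unfold kt
  rw [e]
  have : (1 / 256 : ℝ) ^ n * R₀ ≠ 0 := hp.ne'
  rw [← mul_assoc]
  congr 1
  rw [div_eq_iff (by positivity)]
  field_simp
  norm_num

lemma chain_cmp (hκ : 0 < κ) (hκ1 : κ ≤ 1) (hρ : 0 < ρ) (h : LF κ R x f m W g) {R₀ : ℝ}
    (hR₀ : 0 < R₀) (hR₀R : R₀ ≤ R) {k n : ℕ} (hkn : k ≤ n) :
    AA κ ρ R g x W m ((1 / 256 : ℝ) ^ n * R₀)
      ≤ AA κ ρ R g x W m ((1 / 256 : ℝ) ^ k * R₀)
        + 65536 / κ * ∑ j ∈ Finset.range n, kt R₀ x m j := by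
  induction n, hkn using Nat.le_induction with
  | base =>
    have : 0 ≤ 65536 / κ * ∑ j ∈ Finset.range k, kt R₀ x m j :=
      mul_nonneg (by positivity) (Finset.sum_nonneg fun j _ => kt_nonneg h hR₀ j)
    linarith
  | succ n hkn ih =>
    have h1 := chain_step hκ hκ1 hρ h hR₀ hR₀R n
    rw [Finset.sum_range_succ, mul_add]
    linarith

lemma ks_sum {μ : ℝ} (hK : KS R x m μ) (n : ℕ) : ∑ j ∈ Finset.range n, kt R x m j ≤ μ := hK n

lemma ks_term (h : LF κ R x f m W g) (hR : 0 < R) {μ : ℝ} (hK : KS R x m μ) (n : ℕ) :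
    kt R x m n ≤ μ := by
  refine le_trans ?_ (ks_sum hK (n + 1))
  rw [Finset.sum_range_succ]
  have : 0 ≤ ∑ j ∈ Finset.range n, kt R x m j := Finset.sum_nonneg fun j _ => kt_nonneg h hR j
  linarith

theorem morV : StmMorV := by
  intro κ hκ hκ1
  refine ⟨4294967296 / κ ^ 2, κ / 128, by positivity, by positivity, by linarith, ?_⟩
  intro R μ x f m W g hR h hK r hr hrc
  have hμ : 0 ≤ μ := by
    have := ks_sum hK 0
    simpa using this
  -- the scale
  have hx0 : 0 < 128 * r / (κ * R) := by positivity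
  have hx1 : 128 * r / (κ * R) ≤ 1 := by
    rw [div_le_one (by positivity)]
    linarith
  obtain ⟨n, hn1, hn2⟩ := exists_nat_pow_near_of_lt_one hx0 hx1
    (show (0 : ℝ) < 1 / 256 by norm_num) (show (1 / 256 : ℝ) < 1 by norm_num)
  obtain ⟨r₁, hr₁⟩ : ∃ r₁, r₁ = (1 / 256 : ℝ) ^ n * R := ⟨_, rfl⟩
  have hr₁0 : 0 < r₁ := by rw [hr₁]; exact geo_pos R hR n
  have hr₁R : r₁ ≤ R := by rw [hr₁]; exact geo_le R hR n
  have hlow : 128 / κ * r ≤ r₁ := by
    rw [div_le_iff₀ (by positivity)] at hn2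
    rw [hr₁, div_mul_eq_mul_div, div_le_iff₀ hκ]
    linarith
  have hupp : r₁ ≤ 32768 * r / κ := by
    rw [lt_div_iff₀ (by positivity), pow_succ] at hn1
    rw [hr₁, le_div_iff₀ hκ]
    linarith
  have b1 := lb_strong hκ hκ1 hr h hlow hr₁R
  have b2 := chain_cmp hκ hκ1 hr h hR le_rfl (Nat.zero_le n)
  rw [pow_zero, one_mul, ← hr₁] at b2
  have b3 := ub κ r R R x f m W g hκ hκ1 hr h hR le_rfl
  have b4 : kt R x m n ≤ μ := ks_term h hR hK n
  have b5 : kt R x m 0 ≤ μ := ks_term h hR hK 0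
  have b6 := ks_sum hK n
  unfold kt at b4 b5
  rw [← hr₁] at b4
  rw [pow_zero, one_mul] at b5
  have b7 : ∫ y in closedBall x R, (2 * f y + m y)
      = 2 * (∫ y in closedBall x R, f y) + ∫ y in closedBall x R, m y := by
    rw [integral_add ((int_cont h.fc x R).const_mul 2) (int_cont h.mc x R), integral_const_mul]
  obtain ⟨I, hI⟩ : ∃ I, I = (∫ y in closedBall x R, f y) / R := ⟨_, rfl⟩
  have hI0 : 0 ≤ I := by
    rw [hI]
    exact div_nonneg (setIntegral_nonneg isClosed_closedBall.measurableSet fun y hy =>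
      f_nonneg h hy) hR.le
  have hJ : ∫ y in closedBall x R, f y = I * R := by
    rw [hI, div_mul_cancel₀ _ hR.ne']
  have b8 : AA κ r R g x W m R ≤ 256 / κ * I + 128 / κ * μ := by
    refine b3.trans ?_
    rw [b7, hJ]
    have e : 128 / (κ * R) * (2 * (I * R) + ∫ y in closedBall x R, m y)
        = 256 / κ * I + 128 / κ * (R⁻¹ * ∫ y in closedBall x R, m y) := by
      field_simp
      ring
    rw [e]
    have := mul_le_mul_of_nonneg_left b5 (show 0 ≤ 128 / κ by positivity)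
    linarith
  have b9 : 8 / (κ * r₁) * ∫ y in closedBall x r₁, m y ≤ 8 / κ * μ := by
    have e : 8 / (κ * r₁) * ∫ y in closedBall x r₁, m y
        = 8 / κ * (r₁⁻¹ * ∫ y in closedBall x r₁, m y) := by
      field_simp
    rw [e]
    exact mul_le_mul_of_nonneg_left b4 (by positivity)
  have b10 := mul_le_mul_of_nonneg_left b6 (show 0 ≤ 65536 / κ by positivity)
  have b11 : 1 / r₁ * ∫ y in closedBall x r, f y ≤ 131072 / κ * (I + μ) := by
    have e : 131072 / κ * (I + μ) = 256 / κ * I + 128 / κ * μ + 65536 / κ * μ + 8 / κ * μ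
        + (130816 * I + 65400 * μ) / κ := by
      field_simp
      ring
    have : 0 ≤ (130816 * I + 65400 * μ) / κ := by positivity
    linarith
  have b12 : ∫ y in closedBall x r, f y ≤ r₁ * (131072 / κ * (I + μ)) := by
    have := mul_le_mul_of_nonneg_left b11 hr₁0.le
    have e : r₁ * (1 / r₁ * ∫ y in closedBall x r, f y) = ∫ y in closedBall x r, f y := by
      field_simp
    rwa [e] at this
  refine b12.trans ?_
  have b13 := mul_le_mul_of_nonneg_right hupp (show 0 ≤ 131072 / κ * (I + μ) by positivity)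
  refine b13.trans (le_of_eq ?_)
  rw [← hI]
  field_simp
  ring

end

end Pool.Agent.H2VL
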