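import Pool.Agent.H2VL.Lb

/-!
Project VL, part 6: two families of curves.
-/

set_option autoImplicit false

open MeasureTheory Set Metric Filter Topology
open scoped ContDiff
open H459R3.NS Pool.Agent.W268.NS Pool.Agent.Q67.VD

namespace Pool.Agent.H2VL

open Pool.Agent.Q85.CC Pool.Agent.Q85.CL Pool.Agent.Q151.CC Pool.Agent.Q85.VL

/-- The algebra of the two families. -/
lemma tf_alg {T P T' P' X ψ ψ' τ τ' ξ dU dW dV m B C₁ C₂ C₃ : ℝ} (hT0 : 0 ≤ T) (hT1 : T ≤ 1)
    (hP0 : 0 ≤ P) (hP1 : P ≤ 1) (hT'0 : 0 ≤ T') (hT'1 : T' ≤ 1) (hP'0 : 0 ≤ P') (hP'1 : P' ≤ 1)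
    (hX0 : 0 ≤ X) (hX1 : X ≤ 1) (hψ : 0 ≤ ψ) (hψ' : 0 ≤ ψ') (hψ'1 : ψ' ≤ C₂) (hτ : 0 ≤ τ)
    (hτ1 : τ ≤ C₁) (hτ' : 0 ≤ τ') (hτ'1 : τ' ≤ C₁) (hξ : 0 ≤ ξ) (hξ1 : ξ ≤ C₃) (hm : 0 ≤ m)
    (hdU : 0 ≤ dU + m) (hdW : -m ≤ dW) (hdV : 0 ≤ dV + m)
    (hA : T' * ψ' ≠ 0 → T = 1 ∧ P = 0 ∧ X = 0)
    (hB : B ≤ 0 ∨ (T = 1 ∧ P = 0 ∧ T' = 0 ∧ B ≤ ξ * (dV + m))) :
    B + T' * (ψ' * (dU + m)) - T * (ψ * (dU + m))
      ≤ (T * (1 - P) * ((1 - X) * (T' * (ψ' * dU) + P' * (τ' * dW)) + (1 - T' * P') * (ξ * dV))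
        + (1 - (1 - T' * P') * (1 - X)) * (T * -(ψ * dU) + (1 - P) * (τ * dW)))
        + (C₁ + C₁ + C₂ + C₃) * m := by
  obtain ⟨H, hH⟩ : ∃ H, H = 1 - (1 - T' * P') * (1 - X) := ⟨_, rfl⟩
  have hTP0 : 0 ≤ T' * P' := mul_nonneg hT'0 hP'0
  have hTP1 : T' * P' ≤ 1 := mul_le_one₀ hT'1 hP'0 hP'1
  have hq0 : 0 ≤ (1 - T' * P') * (1 - X) := mul_nonneg (by linarith) (by linarith)
  have hq1 : (1 - T' * P') * (1 - X) ≤ 1 := mul_le_one₀ (by linarith) (by linarith) (by linarith)
  have hH0 : 0 ≤ H := by rw [hH]; linarith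
  have hH1 : H ≤ 1 := by rw [hH]; linarith
  rw [← hH]
  -- the flux at the scale `r`
  have e1 : T * H * (ψ * (dU + m)) ≤ T * (ψ * (dU + m)) := by
    have h1 : 0 ≤ T * (ψ * (dU + m)) := mul_nonneg hT0 (mul_nonneg hψ hdU)
    calc T * H * (ψ * (dU + m)) = H * (T * (ψ * (dU + m))) := by ring
      _ ≤ 1 * (T * (ψ * (dU + m))) := mul_le_mul_of_nonneg_right hH1 h1
      _ = _ := one_mul _
  have e2 : 0 ≤ T * H * (ψ * m) := mul_nonneg (mul_nonneg hT0 hH0) (mul_nonneg hψ hm)
  -- the term with `τ`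
  have e3 : -(C₁ * m) ≤ H * ((1 - P) * (τ * dW)) := by
    have h1 : 0 ≤ H * (1 - P) * τ := mul_nonneg (mul_nonneg hH0 (by linarith)) hτ
    have h2 : H * (1 - P) * τ ≤ C₁ := by
      calc H * (1 - P) * τ ≤ 1 * τ :=
            mul_le_mul_of_nonneg_right (mul_le_one₀ hH1 (by linarith) (by linarith)) hτ
        _ = τ := one_mul _
        _ ≤ C₁ := hτ1
    have h3 := mul_le_mul_of_nonneg_left hdW h1
    have h4 := mul_le_mul_of_nonneg_right h2 hm
    calc -(C₁ * m) ≤ -(H * (1 - P) * τ * m) := neg_le_neg h4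
      _ = H * (1 - P) * τ * -m := by ring
      _ ≤ H * (1 - P) * τ * dW := h3
      _ = _ := by ring
  -- the flux at the small scale
  have e4 : T' * (ψ' * (dU + m)) - C₂ * m ≤ T * (1 - P) * ((1 - X) * (T' * (ψ' * dU))) := by
    have h4 : T' * (ψ' * m) ≤ C₂ * m := by
      calc T' * (ψ' * m) = T' * ψ' * m := by ring
        _ ≤ 1 * ψ' * m := mul_le_mul_of_nonneg_right (mul_le_mul_of_nonneg_right hT'1 hψ') hm
        _ = ψ' * m := by ring
        _ ≤ C₂ * m := mul_le_mul_of_nonneg_right hψ'1 hm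
    by_cases h0 : T' * ψ' = 0
    · have h5 : T' * (ψ' * (dU + m)) = 0 := by rw [← mul_assoc, h0, zero_mul]
      have h6 : T' * (ψ' * dU) = 0 := by rw [← mul_assoc, h0, zero_mul]
      rw [h5, h6]
      have : 0 ≤ C₂ * m := mul_nonneg (hψ'.trans hψ'1) hm
      simp only [mul_zero]
      linarith
    · obtain ⟨h5, h6, h7⟩ := hA h0
      rw [h5, h6, h7]
      have : T' * (ψ' * (dU + m)) = T' * (ψ' * dU) + T' * (ψ' * m) := by ring
      rw [this]
      linarith
  -- the second term
  have e5 : -(C₁ * m) ≤ T * (1 - P) * ((1 - X) * (P' * (τ' * dW))) := by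
    have h1 : 0 ≤ T * (1 - P) * (1 - X) * P' * τ' :=
      mul_nonneg (mul_nonneg (mul_nonneg (mul_nonneg hT0 (by linarith)) (by linarith)) hP'0) hτ'
    have h2 : T * (1 - P) * (1 - X) * P' * τ' ≤ C₁ := by
      have h3 : T * (1 - P) * (1 - X) * P' ≤ 1 :=
        mul_le_one₀ (mul_le_one₀ (mul_le_one₀ hT1 (by linarith) (by linarith)) (by linarith)
          (by linarith)) hP'0 hP'1
      calc T * (1 - P) * (1 - X) * P' * τ' ≤ 1 * τ' := mul_le_mul_of_nonneg_right h3 hτ'
        _ = τ' := one_mul _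
        _ ≤ C₁ := hτ'1
    have h3 := mul_le_mul_of_nonneg_left hdW h1
    have h4 := mul_le_mul_of_nonneg_right h2 hm
    calc -(C₁ * m) ≤ -(T * (1 - P) * (1 - X) * P' * τ' * m) := neg_le_neg h4
      _ = T * (1 - P) * (1 - X) * P' * τ' * -m := by ring
      _ ≤ T * (1 - P) * (1 - X) * P' * τ' * dW := h3
      _ = _ := by ring
  -- the curves through the small ball
  have e6 : B - C₃ * m ≤ T * (1 - P) * ((1 - T' * P') * (ξ * dV)) := by
    have h1 : 0 ≤ T * (1 - P) * (1 - T' * P') * ξ :=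
      mul_nonneg (mul_nonneg (mul_nonneg hT0 (by linarith)) (by linarith)) hξ
    have h2 : T * (1 - P) * (1 - T' * P') * ξ ≤ C₃ := by
      have h3 : T * (1 - P) * (1 - T' * P') ≤ 1 :=
        mul_le_one₀ (mul_le_one₀ hT1 (by linarith) (by linarith)) (by linarith) (by linarith)
      calc T * (1 - P) * (1 - T' * P') * ξ ≤ 1 * ξ := mul_le_mul_of_nonneg_right h3 hξ
        _ = ξ := one_mul _
        _ ≤ C₃ := hξ1
    have h4 := mul_le_mul_of_nonneg_right h2 hm
    rcases hB with hB | ⟨hB1, hB2, hB3, hB4⟩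
    · have h3 := mul_nonneg h1 hdV
      have e : T * (1 - P) * (1 - T' * P') * ξ * (dV + m)
          = T * (1 - P) * ((1 - T' * P') * (ξ * dV)) + T * (1 - P) * (1 - T' * P') * ξ * m := by
        ring
      rw [e] at h3
      linarith
    · rw [hB1, hB2, hB3]
      have h5 := mul_le_mul_of_nonneg_right hξ1 hm
      have e : (1 : ℝ) * (1 - 0) * ((1 - 0 * P') * (ξ * dV)) = ξ * (dV + m) - ξ * m := by ring
      rw [e]
      linarith
  have e7 : T * (1 - P) * ((1 - X) * (T' * (ψ' * dU) + P' * (τ' * dW)) + (1 - T' * P') * (ξ * dV))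
      + H * (T * -(ψ * dU) + (1 - P) * (τ * dW))
      = T * (1 - P) * ((1 - X) * (T' * (ψ' * dU))) + T * (1 - P) * ((1 - X) * (P' * (τ' * dW)))
        + T * (1 - P) * ((1 - T' * P') * (ξ * dV)) + H * ((1 - P) * (τ * dW))
        - T * H * (ψ * (dU + m)) + T * H * (ψ * m) := by ring
  rw [e7]
  linarith

theorem tf : StmTF := by
  intro κ ρ R r s x z f m W g hκ hκ1 hρ h hr hrR hρr hs1 hs2 hz hu
  obtain ⟨r', hr'd⟩ : ∃ r', r' = r / 256 := ⟨_, rfl⟩
  have hr' : 0 < r' := by rw [hr'd]; positivity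
  obtain ⟨δ, hδd⟩ : ∃ δ, δ = κ / 524288 * r := ⟨_, rfl⟩
  have hδ : 0 < δ := by rw [hδd]; positivity
  rw [← hr'd, ← hδd]
  have hκr0 : 0 < κ * r := by positivity
  have hκr : κ * r ≤ r := mul_le_of_le_one_left hr.le hκ1
  have hδr : δ = κ * r / 524288 := by rw [hδd]; ring
  have hκr' : κ * r' = κ * r / 256 := by rw [hr'd]; ring
  have hT := TT_smooth (κ := κ) (x := x) h.gs hρ r
  have hP := PS_smooth (κ := κ) (x := x) h.gs hρ r
  have hT' := TT_smooth (κ := κ) (x := x) h.gs hρ r'
  have hP' := PS_smooth (κ := κ) (x := x) h.gs hρ r'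
  have hv : ContDiff ℝ 1 (uu κ δ g z) := uu_smooth h.gs hδ
  obtain ⟨X, hX⟩ : ∃ X : V → ℝ, X = fun y => stp ((uu κ δ g z y + 8 * δ) / (16 * δ)) := ⟨_, rfl⟩
  obtain ⟨ξ, hξ⟩ : ∃ ξ : V → ℝ, ξ = fun y => stp' ((uu κ δ g z y + 8 * δ) / (16 * δ)) / (16 * δ) :=
    ⟨_, rfl⟩
  have hXs : ContDiff ℝ 1 X := by
    rw [hX]
    exact stp_comp hv _ _
  have hXd : ∀ y, dv X W y = ξ y * dv (uu κ δ g z) W y := by
    intro y
    rw [hX, hξ]
    exact stp_comp_fd hv _ _ _ _
  -- auxiliary functions
  have hT'P' : ContDiff ℝ 1 (fun y => TT κ ρ g x r' y * PS κ ρ g x r' y) := hT'.mul hP'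
  have hA1 : ContDiff ℝ 1 (fun y => 1 - TT κ ρ g x r' y * PS κ ρ g x r' y) :=
    contDiff_const.sub hT'P'
  have hA2 : ContDiff ℝ 1 (fun y => 1 - X y) := contDiff_const.sub hXs
  have hA3 : ContDiff ℝ 1 (fun y => (1 - TT κ ρ g x r' y * PS κ ρ g x r' y) * (1 - X y)) :=
    hA1.mul hA2
  have hH : ContDiff ℝ 1
      (fun y => 1 - (1 - TT κ ρ g x r' y * PS κ ρ g x r' y) * (1 - X y)) :=
    contDiff_const.sub hA3
  have hP1 : ContDiff ℝ 1 (fun y => 1 - PS κ ρ g x r y) := contDiff_const.sub hP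
  have hTP1 : ContDiff ℝ 1 (fun y => TT κ ρ g x r y * (1 - PS κ ρ g x r y)) := hT.mul hP1
  obtain ⟨F, hF⟩ : ∃ F : V → ℝ, F = fun y => (TT κ ρ g x r y * (1 - PS κ ρ g x r y))
      * (1 - (1 - TT κ ρ g x r' y * PS κ ρ g x r' y) * (1 - X y)) := ⟨_, rfl⟩
  have hFs : ContDiff ℝ 1 F := by
    rw [hF]
    exact hTP1.mul hH
  have hFd : ∀ y, dv F W y
      = TT κ ρ g x r y * (1 - PS κ ρ g x r y) * ((1 - X y) * (TT κ ρ g x r' y
          * (psi κ ρ g x r' y * dv (uu κ ρ g x) W y)
          + PS κ ρ g x r' y * (tau κ ρ g x r' y * dv (ww κ ρ g x) W y))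
          + (1 - TT κ ρ g x r' y * PS κ ρ g x r' y) * (ξ y * dv (uu κ δ g z) W y))
        + (1 - (1 - TT κ ρ g x r' y * PS κ ρ g x r' y) * (1 - X y))
          * (TT κ ρ g x r y * -(psi κ ρ g x r y * dv (uu κ ρ g x) W y)
            + (1 - PS κ ρ g x r y) * (tau κ ρ g x r y * dv (ww κ ρ g x) W y)) := by
    intro y
    rw [hF, dv_mul hTP1 hH, dv_mul hT hP1, dv_one_sub hP, dv_one_sub hA3, dv_mul hA1 hA2,
      dv_one_sub hT'P', dv_one_sub hXs, dv_mul hT' hP', PS_dv h.gs hρ, PS_dv h.gs hρ,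
      TT_dv h.gs hρ, TT_dv h.gs hρ, hXd]
    ring
  have hFne : ∀ y, F y ≠ 0 → y ∈ closedBall x r := by
    intro y hy
    rw [hF] at hy
    have h1 := left_ne_zero_of_mul hy
    have h2 := TT_ne hκ hr (left_ne_zero_of_mul h1)
    have h3 : uu κ ρ g x y < κ * r / 32 := by
      by_contra hc
      apply right_ne_zero_of_mul h1
      rw [PS_one hκ hr (not_lt.1 hc), sub_self]
    exact mem_of_ds ((ds_lt hκ h3 h2).le.trans (by linarith))
  have hsub : closedBall x r ⊆ closedBall x R := closedBall_subset_closedBall hrR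
  have hδ1 : δ ≤ r / 524288 := by rw [hδr]; linarith
  have hBz : closedBall z δ ⊆ closedBall x r := by
    apply closedBall_subset_closedBall'
    rw [dist_eq_norm, hz]
    linarith
  have key := master h (F := F)
    (a := fun y => 512 / r * (closedBall z δ).indicator f y
      + pr κ ρ g x W m r' y - pr κ ρ g x W m r y) hFs
    (fun y hy => hsub (hFne y hy))
    (((((int_cont h.fc x R).indicator isClosed_closedBall.measurableSet).const_mul _).add
      (int_cont (pr_cont h hρ r') _ _)).sub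
      (int_cont (pr_cont h hρ r) _ _)) (r := r) (C := 524288 / (κ * r)) hrR
  have hkey := key (fun y hy => ?_) (fun y hy hyr => ?_)
  · have e : ∫ y in closedBall x R, (512 / r * (closedBall z δ).indicator f y
        + pr κ ρ g x W m r' y - pr κ ρ g x W m r y)
        = 512 / r * (∫ y in closedBall z δ, f y) + AA κ ρ R g x W m r' - AA κ ρ R g x W m r := by
      have i1 : IntegrableOn (fun y => 512 / r * (closedBall z δ).indicator f y)
          (closedBall x R) :=
        (((int_cont h.fc x R).indicator isClosed_closedBall.measurableSet).const_mul _)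
      have i2 := int_cont (pr_cont h hρ r') x R
      have i3 := int_cont (pr_cont h hρ r) x R
      have i12 : IntegrableOn (fun y => 512 / r * (closedBall z δ).indicator f y
          + pr κ ρ g x W m r' y) (closedBall x R) := i1.add i2
      rw [integral_sub i12 i3, integral_add i1 i2, integral_const_mul,
        setIntegral_indicator isClosed_closedBall.measurableSet,
        inter_eq_self_of_subset_right (hBz.trans hsub)]
      rfl
    rw [e] at hkey
    have h1 := mul_le_mul_of_nonneg_left hkey (show 0 ≤ r / 512 by positivity)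
    have e1 : r / 512 * (512 / r * (∫ y in closedBall z δ, f y) + AA κ ρ R g x W m r'
        - AA κ ρ R g x W m r)
        = (∫ y in closedBall z δ, f y) + r / 512 * (AA κ ρ R g x W m r'
        - AA κ ρ R g x W m r) := by
      have e0 : r / 512 * (512 / r) = 1 := by field_simp
      rw [add_sub_assoc, mul_add, ← mul_assoc, e0, one_mul]
    have e2 : r / 512 * (524288 / (κ * r) * ∫ y in closedBall x r, m y)
        = 1024 / κ * ∫ y in closedBall x r, m y := by
      have e0 : r / 512 * (524288 / (κ * r)) = 1024 / κ := by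
        field_simp
        norm_num
      rw [← mul_assoc, e0]
    rw [e1, e2] at h1
    linarith
  · have hyR := hsub hy
    rw [hFd, pr_eq, pr_eq]
    -- the bounds
    have hm := h.m0 y
    have hξ0 : 0 ≤ ξ y := by
      rw [hξ]
      exact div_nonneg (stp'_nonneg _) (by positivity)
    have hξ1 : ξ y ≤ 65536 / (κ * r) := by
      rw [hξ]
      have h1 := stp'_le2 ((uu κ δ g z y + 8 * δ) / (16 * δ))
      rw [div_le_div_iff₀ (by positivity) (by positivity)]
      have h2 := mul_le_mul_of_nonneg_right h1 hκr0.le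
      have e : (65536 : ℝ) * (16 * δ) = 2 * (κ * r) := by rw [hδr]; ring
      rw [e]
      exact h2
    have hX0 : 0 ≤ X y := by rw [hX]; exact stp_nonneg _
    have hX1 : X y ≤ 1 := by rw [hX]; exact stp_le_one _
    have hdV : κ / 2 * f y ≤ dv (uu κ δ g z) W y + m y := by
      have h1 := cone_lo h (z := z) hδ (b := κ / 2) (by positivity) (g z) hyR
      have e : κ - κ / 2 = κ / 2 := by ring
      rw [e] at h1
      exact h1
    have hf := f_nonneg h hyR
    have hdV0 : 0 ≤ dv (uu κ δ g z) W y + m y :=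
      le_trans (mul_nonneg (by positivity) hf) hdV
    have c1 : 32 / (κ * r) ≤ 32 / (κ * r') := by
      apply div_le_div_of_nonneg_left (by norm_num) (by positivity)
      rw [hκr']
      linarith
    have main := tf_alg (T := TT κ ρ g x r y) (P := PS κ ρ g x r y) (T' := TT κ ρ g x r' y)
      (P' := PS κ ρ g x r' y) (X := X y) (ψ := psi κ ρ g x r y) (ψ' := psi κ ρ g x r' y)
      (τ := tau κ ρ g x r y) (τ' := tau κ ρ g x r' y) (ξ := ξ y) (dU := dv (uu κ ρ g x) W y)
      (dW := dv (ww κ ρ g x) W y) (dV := dv (uu κ δ g z) W y) (m := m y)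
      (B := 512 / r * (closedBall z δ).indicator f y) (C₁ := 32 / (κ * r'))
      (C₂ := 128 / (κ * r')) (C₃ := 65536 / (κ * r))
      (TT_nonneg _ _) (TT_le_one _ _) (PS_nonneg _ _) (PS_le_one _ _) (TT_nonneg _ _)
      (TT_le_one _ _) (PS_nonneg _ _) (PS_le_one _ _) hX0 hX1 (psi_nonneg hκ hr y)
      (psi_nonneg hκ hr' y) (psi_le hκ hr' y) (tau_nonneg hκ hr y) ((tau_le hκ hr y).trans c1)
      (tau_nonneg hκ hr' y) (tau_le hκ hr' y) hξ0 hξ1 hm (uu_lo0 h hκ hρ hyR)
      (ww_lo0 h hκ hρ hyR) hdV0 ?_ ?_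
    · refine main.trans (add_le_add le_rfl (mul_le_mul_of_nonneg_right ?_ hm))
      rw [hκr']
      have e : 32 / (κ * r / 256) + 32 / (κ * r / 256) + 128 / (κ * r / 256) + 65536 / (κ * r)
          = 114688 / (κ * r) := by
        field_simp
        norm_num
      rw [e]
      exact div_le_div_of_nonneg_right (by norm_num) hκr0.le
    · -- the support of the flux at the small scale
      intro hne
      have d1 := TT_ne hκ hr' (left_ne_zero_of_mul hne)
      have d2 := psi_ne hκ hr' (right_ne_zero_of_mul hne)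
      have d3 := ds_lt hκ d2.2 d1
      rw [hκr'] at d1 d2
      refine ⟨TT_one hκ hr (by linarith), PS_zero hκ hr (by linarith [d2.2]), ?_⟩
      rw [hX]
      apply stp_of_le
      apply div_nonpos_of_nonpos_of_nonneg _ (by positivity)
      have g1 : g y - g x - κ / 2 * ds x ρ y < κ * r / 256 / 32 := d2.2
      have g2 : g z - g x - κ / 2 * ds x ρ z = -(4 * (κ / 65536) * r) := hu
      have g3 : s ≤ ds x ρ z := by rw [← hz]; exact norm_le_ds x ρ z
      have g4 : ‖y - x‖ < 5 / 8 * r' := (norm_le_ds x ρ y).trans_lt d3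
      have g5 : s - 5 / 8 * r' ≤ ds z δ y := by
        have h1 := norm_le_ds z δ y
        have h2 : ‖z - x‖ ≤ ‖y - z‖ + ‖y - x‖ := by
          have h3 := norm_sub_le (y - x) (y - z)
          have h4 : y - x - (y - z) = z - x := by abel
          rw [h4] at h3
          linarith
        rw [hz] at h2
        linarith
      have m1 := mul_le_mul_of_nonneg_left d3.le (show 0 ≤ κ / 2 by positivity)
      have m2 := mul_le_mul_of_nonneg_left g3 (show 0 ≤ κ / 2 by positivity)
      have m3 := mul_le_mul_of_nonneg_left g5 (show 0 ≤ κ / 2 by positivity)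
      have m4 := mul_le_mul_of_nonneg_left hs1 (show 0 ≤ κ by positivity)
      have e1 : κ / 2 * (5 / 8 * r') = 5 / 4096 * (κ * r) := by rw [hr'd]; ring
      have e2 : κ / 2 * (s - 5 / 8 * r') = κ * s / 2 - 5 / 4096 * (κ * r) := by rw [hr'd]; ring
      have e3 : κ / 2 * s = κ * s / 2 := by ring
      have e4 : κ * (r / 64) = κ * r / 64 := by ring
      have e5 : 4 * (κ / 65536) * r = κ * r / 16384 := by ring
      rw [e1] at m1
      rw [e3] at m2
      rw [e2] at m3
      rw [e4] at m4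
      rw [e5] at g2
      show g y - g z - κ / 2 * ds z δ y + 8 * δ ≤ 0
      have e8 : 8 * δ = κ * r / 65536 := by rw [hδr]; ring
      rw [e8]
      linarith
    · by_cases hyz : y ∈ closedBall z δ
      · right
        rw [indicator_of_mem hyz]
        rw [mem_closedBall, dist_eq_norm] at hyz
        have c1 : |g y - g z| ≤ 7 / 4 * δ := (h.lip y z).trans
          ((len_le_norm' _).trans (by linarith))
        have c2 := ds_le_two (x := z) (y := y) hδ.le hyz
        have c3 := ds_nonneg z δ y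
        have c4 := abs_le.1 c1
        have c5 : κ * ds z δ y ≤ 1 * (2 * δ) := mul_le_mul hκ1 c2 c3 zero_le_one
        have c6 : 0 ≤ κ * ds z δ y := mul_nonneg hκ.le c3
        have c7 : |ds x ρ y - ds x ρ z| ≤ 7 / 4 * δ := (ds_lip hρ x y z).trans
          ((len_le_norm' _).trans (by linarith))
        have c8 := abs_le.1 c7
        have g2 : g z - g x - κ / 2 * ds x ρ z = -(4 * (κ / 65536) * r) := hu
        have e5 : 4 * (κ / 65536) * r = 32 * δ := by rw [hδr]; ring
        rw [e5] at g2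
        have c9 : |κ * (ds x ρ y - ds x ρ z)| ≤ 7 / 4 * δ := by
          rw [abs_mul, abs_of_pos hκ]
          calc κ * |ds x ρ y - ds x ρ z| ≤ 1 * (7 / 4 * δ) :=
                mul_le_mul hκ1 c7 (abs_nonneg _) zero_le_one
            _ = _ := one_mul _
        have c10 := abs_le.1 c9
        have hul : -(35 * δ) ≤ uu κ ρ g x y := by
          unfold uu
          linarith
        have huu : uu κ ρ g x y ≤ -(29 * δ) := by
          unfold uu
          linarith
        have hnyx : ‖y - x‖ ≤ s + δ := by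
          have h3 := norm_add_le (y - z) (z - x)
          have h4 : y - z + (z - x) = y - x := by abel
          rw [h4] at h3
          linarith
        have hnyx2 : s - δ ≤ ‖y - x‖ := by
          have h3 := norm_sub_le (y - x) (y - z)
          have h4 : y - x - (y - z) = z - x := by abel
          rw [h4] at h3
          linarith
        have hdu : ds x ρ y ≤ 7 / 4 * (s + δ) + r / 64 := by
          have h1 := ds_le hρ.le x y
          have h2 := len_le_norm' (y - x)
          linarith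
        have hdl : s - δ ≤ ds x ρ y := hnyx2.trans (norm_le_ds x ρ y)
        have hwr := uw κ ρ g x y
        have m1 := mul_le_mul_of_nonneg_left hdu (show 0 ≤ κ / 4 by positivity)
        have m2 := mul_le_mul_of_nonneg_left hdl (show 0 ≤ κ / 4 by positivity)
        have m3 := mul_le_mul_of_nonneg_left hs2 (show 0 ≤ κ by positivity)
        have m4 := mul_le_mul_of_nonneg_left hs1 (show 0 ≤ κ by positivity)
        have m5 : κ * δ ≤ δ := mul_le_of_le_one_left hδ.le hκ1
        have m6 : 0 ≤ κ * δ := by positivity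
        have hκrδ : κ * r = 524288 * δ := by rw [hδr]; ring
        have e6 : κ * (r / 64) = 8192 * δ := by
          rw [mul_div_assoc', hκrδ]
          ring
        have e7 : κ * (r / 32) = 16384 * δ := by
          rw [mul_div_assoc', hκrδ]
          ring
        rw [e6] at m4
        rw [e7] at m3
        have e8 : κ / 4 * (7 / 4 * (s + δ) + r / 64)
            = 7 / 16 * (κ * s) + 7 / 16 * (κ * δ) + 1 / 4 * (κ * (r / 64)) := by ring
        have e9 : κ / 4 * (s - δ) = 1 / 4 * (κ * s) - 1 / 4 * (κ * δ) := by ring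
        rw [e8, e6] at m1
        rw [e9] at m2
        have hww1 : -(κ * r / 16) ≤ ww κ ρ g x y := by
          rw [hκrδ]
          linarith
        have hww2 : ww κ ρ g x y ≤ -(κ * r' / 8) := by
          rw [hκr', hκrδ]
          linarith
        refine ⟨TT_one hκ hr hww1, PS_zero hκ hr (by linarith), ?_, ?_⟩
        · apply stp_of_le
          apply div_nonpos_of_nonpos_of_nonneg (by linarith) (by positivity)
        · have hv1 : -(11 / 4 * δ) ≤ uu κ δ g z y := by
            unfold uu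
            linarith
          have hv2 : uu κ δ g z y ≤ 7 / 4 * δ := by
            unfold uu
            linarith
          obtain ⟨q, hq⟩ : ∃ q, q = (uu κ δ g z y + 8 * δ) / (16 * δ) := ⟨_, rfl⟩
          have hξq : ξ y = stp' q / (16 * δ) := by rw [hξ, hq]
          have hq1 : 1 / 4 ≤ q := by
            rw [hq, le_div_iff₀ (by positivity)]
            linarith
          have hq2 : q ≤ 3 / 4 := by
            rw [hq, div_le_iff₀ (by positivity)]
            linarith
          have hq3 : 1 ≤ stp' q := by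
            rw [stp'_mid (by linarith) (by linarith)]
            nlinarith
          have d3 : 512 / r * f y ≤ ξ y * (κ / 2 * f y) := by
            rw [hξq]
            have e1 : stp' q / (16 * δ) * (κ / 2 * f y) = stp' q * (16384 / r * f y) := by
              rw [hδr]
              field_simp
              ring
            rw [e1]
            have e2 : 512 / r * f y ≤ 16384 / r * f y :=
              mul_le_mul_of_nonneg_right (div_le_div_of_nonneg_right (by norm_num) hr.le) hf
            exact e2.trans (le_mul_of_one_le_left (by positivity) hq3)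
          exact d3.trans (mul_le_mul_of_nonneg_left hdV hξ0)
      · left
        rw [indicator_of_notMem hyz, mul_zero]
  · have hyρ : y ∉ closedBall z δ := fun hc => hyr (hBz hc)
    have hyr2 : y ∉ closedBall x r' := fun hc =>
      hyr (closedBall_subset_closedBall (by rw [hr'd]; linarith) hc)
    rw [indicator_of_notMem hyρ, mul_zero, zero_add, pr_zero hκ hr hyr, pr_zero hκ hr' hyr2,
      sub_zero]
    have hF0 : F =ᶠ[𝓝 y] fun _ => 0 := by
      filter_upwards [isClosed_closedBall.isOpen_compl.mem_nhds hyr] with z hz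
      by_contra hc
      exact hz (hFne z hc)
    unfold dv
    rw [hF0.fderiv_eq]
    simp

end Pool.Agent.H2VL
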