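import Pool.Agent.H2VL.Mor
import Pool.Agent.H2VL.Tf

/-!
Project VL, part 8: the pinching lemma.
-/

set_option autoImplicit false

open MeasureTheory Set Metric Filter Topology
open scoped ContDiff
open H459R3.NS Pool.Agent.W268.NS Pool.Agent.Q67.VD

namespace Pool.Agent.H2VL

open Pool.Agent.Q85.CC Pool.Agent.Q85.CL Pool.Agent.Q151.CC Pool.Agent.Q85.VL

section

variable {κ ρ R : ℝ} {x : V} {f m : V → ℝ} {W : V → V} {g : V → ℝ}

/-- The reversed field. -/
lemma LF.neg (h : LF κ R x f m W g) : LF κ R x f m (fun y => -W y) (fun y => -g y) := by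
  refine ⟨⟨h.wd.cont.neg, fun F hF hts => ?_⟩, h.fc, h.mc, h.m0, fun y hy => ?_, h.gs.neg,
    fun y z => ?_, fun y hy => ?_⟩
  · have h1 := h.wd.div F hF hts
    simp only [map_neg, integral_neg, h1, neg_zero]
  · rw [len_neg]
    exact h.up y hy
  · rw [neg_sub_neg, len_sub_comm]
    exact h.lip z y
  · have h1 : fderiv ℝ (fun y => -g y) y = -fderiv ℝ g y := fderiv_fun_neg
    rw [h1]
    simpa using h.lo y hy

lemma kt_quarter (h : LF κ R x f m W g) (hR : 0 < R) (j : ℕ) :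
    kt (R / 4) x m j ≤ 4 * kt R x m j := by
  have hp := geo_pos R hR j
  unfold kt
  have e : (1 / 256 : ℝ) ^ j * (R / 4) = (1 / 256 : ℝ) ^ j * R / 4 := by ring
  rw [e]
  have e2 : ((1 / 256 : ℝ) ^ j * R / 4)⁻¹ = 4 * ((1 / 256 : ℝ) ^ j * R)⁻¹ := by
    rw [inv_div]
    ring
  rw [e2, mul_assoc]
  refine mul_le_mul_of_nonneg_left ?_ (by norm_num)
  exact mul_le_mul_of_nonneg_left (int_m_mono h x (by linarith)) (inv_nonneg.2 hp.le)

lemma kt_quarter_sum (h : LF κ R x f m W g) (hR : 0 < R) {μ : ℝ} (hK : KS R x m μ) (n : ℕ) :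
    ∑ j ∈ Finset.range n, kt (R / 4) x m j ≤ 4 * μ := by
  calc ∑ j ∈ Finset.range n, kt (R / 4) x m j ≤ ∑ j ∈ Finset.range n, 4 * kt R x m j :=
        Finset.sum_le_sum fun j _ => kt_quarter h hR j
    _ = 4 * ∑ j ∈ Finset.range n, kt R x m j := by rw [Finset.mul_sum]
    _ ≤ 4 * μ := mul_le_mul_of_nonneg_left (ks_sum hK n) (by norm_num)

lemma int_m_quarter (h : LF κ R x f m W g) (hR : 0 < R) {μ : ℝ} (hK : KS R x m μ) (j : ℕ) :
    ∫ y in closedBall x ((1 / 256 : ℝ) ^ j * (R / 4)), m y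
      ≤ 4 * μ * ((1 / 256 : ℝ) ^ j * (R / 4)) := by
  have hp := geo_pos R hR j
  have h1 := kt_quarter h hR j
  have h2 := ks_term h hR hK j
  have h3 : kt (R / 4) x m j ≤ 4 * μ := by linarith
  unfold kt at h3
  have hp4 : 0 < (1 / 256 : ℝ) ^ j * (R / 4) := by positivity
  have h4 := mul_le_mul_of_nonneg_left h3 hp4.le
  rw [← mul_assoc, mul_inv_cancel₀ hp4.ne', one_mul] at h4
  linarith

/-- The lower bound of the fluxes. -/
lemma flux_lower (hκ : 0 < κ) (hκ1 : κ ≤ 1) (hρ : 0 < ρ) (hR : 0 < R) (h : LF κ R x f m W g)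
    {η μ : ℝ} (hη : 0 < η) (hK : KS R x m μ) (hf : η * ρ ≤ ∫ y in closedBall x ρ, f y) {n : ℕ}
    (hn1 : 128 / κ * ρ ≤ (1 / 256 : ℝ) ^ n * (R / 4))
    (hn2 : (1 / 256 : ℝ) ^ (n + 1) * (R / 4) < 128 / κ * ρ) {k : ℕ} (hkn : k ≤ n) :
    η * κ / 32768 - 262176 * μ / κ ≤ AA κ ρ R g x W m ((1 / 256 : ℝ) ^ k * (R / 4)) := by
  obtain ⟨r, hr⟩ : ∃ r, r = (1 / 256 : ℝ) ^ n * (R / 4) := ⟨_, rfl⟩
  have hr0 : 0 < r := by rw [hr]; positivity
  have hrR : r ≤ R := by
    rw [hr]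
    have := geo_le (R / 4) (by positivity) n
    linarith
  have h1 := chain_cmp hκ hκ1 hρ h (R₀ := R / 4) (by positivity) (by linarith) hkn
  rw [← hr] at h1 hn1
  have h2 := kt_quarter_sum h hR hK n
  have h3 := lb_strong hκ hκ1 hρ h hn1 hrR
  have h4 := int_m_quarter h hR hK n
  rw [← hr] at h4
  have h5 : r < 32768 * ρ / κ := by
    rw [pow_succ] at hn2
    have e : (1 / 256 : ℝ) ^ n * (1 / 256) * (R / 4) = r / 256 := by rw [hr]; ring
    rw [e] at hn2
    have e2 : 32768 * ρ / κ = 256 * (128 / κ * ρ) := by ring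
    linarith
  have h6 : η * κ / 32768 ≤ 1 / r * ∫ y in closedBall x ρ, f y := by
    rw [one_div_mul_eq_div, le_div_iff₀ hr0]
    refine le_trans ?_ hf
    have h7 := mul_le_mul_of_nonneg_left h5.le (show 0 ≤ η * κ / 32768 by positivity)
    refine h7.trans (le_of_eq ?_)
    field_simp
  have h8 : 8 / (κ * r) * ∫ y in closedBall x r, m y ≤ 32 * μ / κ := by
    have := mul_le_mul_of_nonneg_left h4 (show 0 ≤ 8 / (κ * r) by positivity)
    refine this.trans (le_of_eq ?_)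
    field_simp
    ring
  have h9 : 65536 / κ * ∑ j ∈ Finset.range n, kt (R / 4) x m j ≤ 262144 * μ / κ := by
    have := mul_le_mul_of_nonneg_left h2 (show 0 ≤ 65536 / κ by positivity)
    refine this.trans (le_of_eq ?_)
    ring
  have e : 262176 * μ / κ = 32 * μ / κ + 262144 * μ / κ := by ring
  linarith

/-- The lower bound for the shells. -/
lemma shell_lower (hκ : 0 < κ) (hκ1 : κ ≤ 1) (hρ : 0 < ρ) (hR : 0 < R)
    (h : LF κ R x f m W g) {η μ : ℝ} (hη : 0 < η) (hK : KS R x m μ)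
    (hμ : μ ≤ κ ^ 2 / 68719476736 * η)
    (hf : η * ρ ≤ ∫ y in closedBall x ρ, f y) {n : ℕ}
    (hn1 : 128 / κ * ρ ≤ (1 / 256 : ℝ) ^ n * (R / 4))
    (hn2 : (1 / 256 : ℝ) ^ (n + 1) * (R / 4) < 128 / κ * ρ) {k : ℕ} (hkn : k < n) {s w : ℝ}
    (hs1 : (1 / 256 : ℝ) ^ k * (R / 4) / 64 ≤ s) (hs2 : s ≤ (1 / 256 : ℝ) ^ k * (R / 4) / 32)
    (hw : 0 < w) (hws : w ≤ s / 4) :
    κ / 131072 * η * w ≤ ∫ y in Shell x s w ∩ {y | 0 < uu κ ρ g x y}, f y := by
  obtain ⟨r, hr⟩ : ∃ r, r = (1 / 256 : ℝ) ^ k * (R / 4) := ⟨_, rfl⟩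
  rw [← hr] at hs1 hs2
  have hr0 : 0 < r := by rw [hr]; positivity
  have hrR : r ≤ R / 4 := by
    rw [hr]
    exact geo_le (R / 4) (by positivity) k
  have e : (1 / 256 : ℝ) ^ (k + 1) * (R / 4) = r / 256 := by
    rw [hr, pow_succ]
    ring
  have h1 := flux_lower hκ hκ1 hρ hR h hη hK hf hn1 hn2 (show k + 1 ≤ n from hkn)
  rw [e] at h1
  have h2 := fc κ ρ R (r / 256) s w x f m W g hκ hκ1 hρ h (by positivity) (by linarith) hw hws
    (by linarith)
  have h3 := int_m_quarter h hR hK k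
  rw [← hr] at h3
  have h4 := int_m_mono h x (show s + w ≤ r by linarith)
  have h5 : 256 / (κ * (r / 256)) * ∫ y in closedBall x (s + w), m y ≤ 262144 * μ / κ := by
    have := mul_le_mul_of_nonneg_left (h4.trans h3)
      (show 0 ≤ 256 / (κ * (r / 256)) by positivity)
    refine this.trans (le_of_eq ?_)
    field_simp
    ring
  have h6 : 524320 * μ / κ ≤ η * κ / 65536 := by
    rw [div_le_iff₀ hκ]
    have e2 : η * κ / 65536 * κ = 1048576 * (κ ^ 2 / 68719476736 * η) := by ring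
    rw [e2]
    have : 0 ≤ κ ^ 2 / 68719476736 * η := by positivity
    linarith
  have e3 : 524320 * μ / κ = 262176 * μ / κ + 262144 * μ / κ := by ring
  have h7 : η * κ / 65536 ≤ 2 / w * ∫ y in Shell x s w ∩ {y | 0 < uu κ ρ g x y}, f y := by
    have e4 : η * κ / 32768 = η * κ / 65536 + η * κ / 65536 := by ring
    linarith
  have h8 := mul_le_mul_of_nonneg_left h7 (show 0 ≤ w / 2 by positivity)
  have e5 : w / 2 * (2 / w * ∫ y in Shell x s w ∩ {y | 0 < uu κ ρ g x y}, f y)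
      = ∫ y in Shell x s w ∩ {y | 0 < uu κ ρ g x y}, f y := by
    field_simp
  rw [e5] at h8
  refine le_trans (le_of_eq ?_) h8
  ring

lemma rank_V : 1 < Module.rank ℝ V := by
  have : Module.rank ℝ (Fin 3 → ℝ) = 3 := by
    rw [rank_fin_fun]
    rfl
  rw [show Module.rank ℝ V = Module.rank ℝ (Fin 3 → ℝ) from rfl, this]
  norm_num

/-- The point of the surface nearest to a point of the shell. -/
lemma shell_proj {s w : ℝ} (hs : 0 < s) (hws : w < s) {y : V} (hy : y ∈ Shell x s w) :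
    ∃ z, ‖z - x‖ = s ∧ ‖y - z‖ ≤ w := by
  have h1 : |‖y - x‖ - s| ≤ w := hy
  have h2 := abs_le.1 h1
  have hn : 0 < ‖y - x‖ := by linarith
  refine ⟨x + (s / ‖y - x‖) • (y - x), ?_, ?_⟩
  · rw [add_sub_cancel_left, norm_smul, Real.norm_eq_abs, abs_of_pos (by positivity),
      div_mul_cancel₀ _ hn.ne']
  · have e : y - (x + (s / ‖y - x‖) • (y - x)) = ((‖y - x‖ - s) / ‖y - x‖) • (y - x) := by
      rw [sub_div, div_self hn.ne', sub_smul, one_smul]
      abel
    rw [e, norm_smul, Real.norm_eq_abs, abs_div, abs_of_pos hn, div_mul_cancel₀ _ hn.ne']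
    exact h1

lemma uu_lip (h : LF κ R x f m W g) (hκ : 0 < κ) (hκ1 : κ ≤ 1) (hρ : 0 < ρ) (y z : V) :
    uu κ ρ g x y ≤ uu κ ρ g x z + 21 / 8 * ‖y - z‖ := by
  have h1 := (abs_le.1 (h.lip y z)).2
  have h2 := (abs_le.1 (ds_lip hρ x y z)).1
  have h3 := len_le_norm' (y - z)
  have h4 := mul_le_mul_of_nonneg_left h2 (show 0 ≤ κ / 2 by positivity)
  have h5 : κ / 2 * len (y - z) ≤ 1 / 2 * len (y - z) :=
    mul_le_mul_of_nonneg_right (by linarith) (len_nonneg _)
  unfold uu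
  linarith

/-- A point of the surface with a given small value of `u`. -/
lemma exists_z (hκ : 0 < κ) (hκ1 : κ ≤ 1) (hρ : 0 < ρ) (hR : 0 < R)
    (h : LF κ R x f m W g) {η μ : ℝ} (hη : 0 < η) (hK : KS R x m μ)
    (hμ : μ ≤ κ ^ 2 / 68719476736 * η)
    (hf : η * ρ ≤ ∫ y in closedBall x ρ, f y) {n : ℕ}
    (hn1 : 128 / κ * ρ ≤ (1 / 256 : ℝ) ^ n * (R / 4))
    (hn2 : (1 / 256 : ℝ) ^ (n + 1) * (R / 4) < 128 / κ * ρ) {k : ℕ} (hkn : k < n) {s : ℝ}
    (hs1 : (1 / 256 : ℝ) ^ k * (R / 4) / 64 ≤ s) (hs2 : s ≤ (1 / 256 : ℝ) ^ k * (R / 4) / 32) :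
    ∃ z, ‖z - x‖ = s ∧
      uu κ ρ g x z = -(4 * (κ / 65536) * ((1 / 256 : ℝ) ^ k * (R / 4))) := by
  obtain ⟨r, hr⟩ : ∃ r, r = (1 / 256 : ℝ) ^ k * (R / 4) := ⟨_, rfl⟩
  have hr0 : 0 < r := by rw [hr]; positivity
  have hs0 : 0 < s := by
    rw [← hr] at hs1
    linarith
  have hκr0 : 0 < κ * r := by positivity
  have hκr : κ * r ≤ r := mul_le_of_le_one_left hr0.le hκ1
  have hne : ∀ {W' : V → V} {g' : V → ℝ}, LF κ R x f m W' g' →
      ∃ y ∈ Shell x s (κ * r / 65536), 0 < uu κ ρ g' x y := by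
    intro W' g' h'
    have hw : 0 < κ * r / 65536 := by positivity
    have hws : κ * r / 65536 ≤ s / 4 := by
      rw [← hr] at hs1
      linarith
    have h1 := shell_lower hκ hκ1 hρ hR h' hη hK hμ hf hn1 hn2 hkn hs1 hs2 hw hws
    by_contra hc
    push Not at hc
    have h2 : Shell x s (κ * r / 65536) ∩ {y | 0 < uu κ ρ g' x y} = ∅ := by
      rw [eq_empty_iff_forall_notMem]
      rintro y ⟨hy1, hy2⟩
      exact absurd hy2 (not_lt.2 (hc y hy1))
    rw [h2, setIntegral_empty] at h1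
    have : 0 < κ / 131072 * η * (κ * r / 65536) := by positivity
    linarith
  rw [← hr] at hs1 hs2 ⊢
  have hws : κ * r / 65536 < s := by linarith
  have hcont : Continuous (uu κ ρ g x) := (uu_smooth h.gs hρ).continuous
  -- a point with a large value
  obtain ⟨y1, hy1, hu1⟩ := hne h
  obtain ⟨z1, hz1, hyz1⟩ := shell_proj hs0 hws hy1
  have hv1 : -(4 * (κ / 65536) * r) ≤ uu κ ρ g x z1 := by
    have h1 := uu_lip h hκ hκ1 hρ y1 z1
    have e : 4 * (κ / 65536) * r = 4 * (κ * r / 65536) := by ring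
    rw [e]
    linarith
  -- a point with a small value
  obtain ⟨y2, hy2, hu2⟩ := hne (LF.neg h)
  obtain ⟨z2, hz2, hyz2⟩ := shell_proj hs0 hws hy2
  have hv2 : uu κ ρ g x z2 ≤ -(4 * (κ / 65536) * r) := by
    have h1 := uu_lip h hκ hκ1 hρ z2 y2
    rw [norm_sub_rev] at h1
    have h2 : -g y2 - -g x - κ / 2 * ds x ρ y2 > 0 := hu2
    have h3 := norm_le_ds x ρ y2
    have h4 := (abs_le.1 (show |‖y2 - x‖ - s| ≤ κ * r / 65536 from hy2)).1
    have h5 : s - κ * r / 65536 ≤ ds x ρ y2 := by linarith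
    have h6 := mul_le_mul_of_nonneg_left h5 hκ.le
    have h7 := mul_le_mul_of_nonneg_left hs1 hκ.le
    have h8 : κ * (κ * r / 65536) ≤ 1 * (κ * r / 65536) :=
      mul_le_mul_of_nonneg_right hκ1 (by positivity)
    have e : 4 * (κ / 65536) * r = 4 * (κ * r / 65536) := by ring
    have e2 : κ * (r / 64) = κ * r / 64 := by ring
    rw [e]
    rw [e2] at h7
    have h9 : uu κ ρ g x y2 ≤ -(κ * ds x ρ y2) := by
      unfold uu
      linarith
    rw [mul_sub] at h6
    linarith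
  have hpre := isPreconnected_sphere (E := V) rank_V x s
  have hmem1 : z1 ∈ sphere x s := by rw [mem_sphere, dist_eq_norm]; exact hz1
  have hmem2 : z2 ∈ sphere x s := by rw [mem_sphere, dist_eq_norm]; exact hz2
  obtain ⟨z, hz, hzu⟩ := hpre.intermediate_value hmem2 hmem1 hcont.continuousOn
    (show -(4 * (κ / 65536) * r) ∈ Icc _ _ from ⟨hv2, hv1⟩)
  refine ⟨z, ?_, hzu⟩
  rw [mem_sphere, dist_eq_norm] at hz
  exact hz

end

theorem pinV : StmPinV := by
  intro κ hκ hκ1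
  refine ⟨κ / 524288, κ ^ 2 / 68719476736, by positivity, by linarith, by positivity, ?_, ?_⟩
  · have : κ ^ 2 ≤ 1 := pow_le_one₀ hκ.le hκ1
    rw [div_le_one (by norm_num)]
    linarith
  intro K η τ hK hη hη1 hτ hτ1
  -- the number of scales
  obtain ⟨N₀, hN₀⟩ := exists_nat_gt ((4 * K + 2) / (κ * τ))
  obtain ⟨N₁, hN₁⟩ := pow_unbounded_of_one_lt (512 / κ) (show (1 : ℝ) < 256 by norm_num)
  have hN₀0 : 0 < (N₀ : ℝ) := lt_of_le_of_lt (by positivity) hN₀
  refine ⟨N₀ + N₁, ?_⟩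
  intro R ρ x f m W g hR h hKR hKS hρ hρN hf
  obtain ⟨μ, hμd⟩ : ∃ μ, μ = κ ^ 2 / 68719476736 * η * τ := ⟨_, rfl⟩
  rw [← hμd] at hKS
  have hμ0 : 0 ≤ μ := by rw [hμd]; positivity
  have hμ : μ ≤ κ ^ 2 / 68719476736 * η := by
    rw [hμd]
    exact mul_le_of_le_one_right (by positivity) hτ1
  -- the smallest scale
  have hx0 : 0 < 512 * ρ / (κ * R) := by positivity
  have hxN : 512 * ρ / (κ * R) ≤ (1 / 256 : ℝ) ^ N₀ := by
    rw [div_le_iff₀ (by positivity)]
    have h1 : 512 ≤ κ * 256 ^ N₁ := by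
      rw [div_lt_iff₀ hκ] at hN₁
      linarith
    have h2 : 512 * ρ ≤ 512 * ((1 / 256 : ℝ) ^ (N₀ + N₁) * R) := by linarith
    have h3 : (512 : ℝ) * ((1 / 256 : ℝ) ^ (N₀ + N₁) * R)
        ≤ (κ * 256 ^ N₁) * ((1 / 256 : ℝ) ^ (N₀ + N₁) * R) :=
      mul_le_mul_of_nonneg_right h1 (by positivity)
    refine (h2.trans h3).trans (le_of_eq ?_)
    rw [pow_add]
    have e : (1 / 256 : ℝ) ^ N₁ * 256 ^ N₁ = 1 := by
      rw [← mul_pow]
      norm_num
    calc κ * 256 ^ N₁ * ((1 / 256 : ℝ) ^ N₀ * (1 / 256) ^ N₁ * R)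
        = (1 / 256 : ℝ) ^ N₀ * (κ * R) * ((1 / 256 : ℝ) ^ N₁ * 256 ^ N₁) := by ring
      _ = _ := by rw [e, mul_one]
  have hx1 : 512 * ρ / (κ * R) ≤ 1 := hxN.trans (pow_le_one₀ (by norm_num) (by norm_num))
  obtain ⟨n, hn1, hn2⟩ := exists_nat_pow_near_of_lt_one hx0 hx1
    (show (0 : ℝ) < 1 / 256 by norm_num) (show (1 / 256 : ℝ) < 1 by norm_num)
  have hnN : N₀ ≤ n := by
    by_contra hc
    have h1 : (1 / 256 : ℝ) ^ N₀ ≤ (1 / 256 : ℝ) ^ (n + 1) :=
      pow_le_pow_of_le_one (by norm_num) (by norm_num) (by omega)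
    exact absurd (hxN.trans h1) (not_le.2 hn1)
  have hn1' : (1 / 256 : ℝ) ^ (n + 1) * (R / 4) < 128 / κ * ρ := by
    have h1 := mul_lt_mul_of_pos_right hn1 (show 0 < R / 4 by positivity)
    refine h1.trans_le (le_of_eq ?_)
    field_simp
    norm_num
  have hn2' : 128 / κ * ρ ≤ (1 / 256 : ℝ) ^ n * (R / 4) := by
    have h1 := mul_le_mul_of_nonneg_right hn2 (show 0 ≤ R / 4 by positivity)
    refine le_trans (le_of_eq ?_) h1
    field_simp
    norm_num
  -- the largest flux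
  obtain ⟨A, hA⟩ : ∃ A : ℕ → ℝ, A = fun k => AA κ ρ R g x W m ((1 / 256 : ℝ) ^ k * (R / 4)) :=
    ⟨_, rfl⟩
  have hA0 : A 0 ≤ (1024 * K + 512) / κ := by
    have h1 := ub κ ρ R (R / 4) x f m W g hκ hκ1 hρ h (by positivity) (by linarith)
    have h2 : ∫ y in closedBall x (R / 4), (2 * f y + m y)
        = 2 * (∫ y in closedBall x (R / 4), f y) + ∫ y in closedBall x (R / 4), m y := by
      rw [integral_add ((int_cont h.fc x _).const_mul 2) (int_cont h.mc x _), integral_const_mul]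
    have h3 := int_f_mono h (show R / 4 ≤ R by linarith) le_rfl
    have h4 := int_m_quarter h hR hKS 0
    rw [pow_zero, one_mul] at h4
    have h5 : μ ≤ 1 := hμ.trans (by
      have : κ ^ 2 ≤ 1 := pow_le_one₀ hκ.le hκ1
      have : κ ^ 2 * η ≤ 1 * 1 := mul_le_mul this hη1 hη.le zero_le_one
      linarith)
    have h6 : ∫ y in closedBall x (R / 4), (2 * f y + m y) ≤ 2 * (K * R) + R := by
      rw [h2]
      have : 4 * μ * (R / 4) ≤ R := by
        have := mul_le_mul_of_nonneg_right h5 hR.le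
        linarith
      linarith
    rw [hA]
    simp only [pow_zero, one_mul]
    refine h1.trans ?_
    have h7 := mul_le_mul_of_nonneg_left h6 (show 0 ≤ 128 / (κ * (R / 4)) by positivity)
    refine h7.trans (le_of_eq ?_)
    field_simp
    ring
  have hAnn : ∀ k, 0 ≤ A k := fun k => by
    rw [hA]
    exact AA_nonneg h hκ hρ (by positivity)
  -- the pigeonhole principle
  obtain ⟨k, hk, hkA⟩ : ∃ k < N₀, A k - A (k + 1) ≤ (1024 * K + 512) / κ / N₀ := by
    by_contra hc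
    push Not at hc
    have h1 : ∑ k ∈ Finset.range N₀, (A k - A (k + 1)) = A 0 - A N₀ := by
      rw [Finset.sum_range_sub']
    have h2 : ∑ k ∈ Finset.range N₀, (1024 * K + 512) / κ / N₀
        < ∑ k ∈ Finset.range N₀, (A k - A (k + 1)) := by
      refine Finset.sum_lt_sum_of_nonempty ?_ fun k hk => hc k (Finset.mem_range.1 hk)
      rw [Finset.nonempty_range_iff]
      rintro rfl
      simp at hN₀0
    rw [h1, Finset.sum_const, Finset.card_range, nsmul_eq_mul, mul_div_cancel₀ _ hN₀0.ne'] at h2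
    linarith [hAnn N₀]
  refine ⟨k, by omega, ?_⟩
  intro s hs1 hs2
  have hkn : k < n := by omega
  obtain ⟨r, hr⟩ : ∃ r, r = (1 / 256 : ℝ) ^ k * (R / 4) := ⟨_, rfl⟩
  have hr0 : 0 < r := by rw [hr]; positivity
  refine ⟨?_, fun w hw hws => ?_⟩
  · obtain ⟨z, hz, hzu⟩ := exists_z hκ hκ1 hρ hR h hη hKS hμ hf hn2' hn1' hkn hs1 hs2
    refine ⟨z, hz, ?_⟩
    have hIm := int_m_quarter h hR hKS k
    have hrR : r ≤ R := by
      have := geo_le (R / 4) (by positivity) k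
      rw [hr]
      linarith
    have hρr : ρ ≤ r / 64 := by
      have h1 : (1 / 256 : ℝ) ^ n * (R / 4) ≤ r := by
        rw [hr]
        exact mul_le_mul_of_nonneg_right
          (pow_le_pow_of_le_one (by norm_num) (by norm_num) hkn.le) (by positivity)
      have h2 : 128 * ρ ≤ 128 / κ * ρ := by
        apply mul_le_mul_of_nonneg_right _ hρ.le
        rw [le_div_iff₀ hκ]
        linarith
      linarith
    rw [← hr] at hs1 hs2 hzu hIm ⊢
    have h1 := tf κ ρ R r s x z f m W g hκ hκ1 hρ h hr0 hrR hρr hs1 hs2 hz hzu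
    have e : (1 / 256 : ℝ) ^ (k + 1) * (R / 4) = r / 256 := by
      rw [hr, pow_succ]
      ring
    have hAk : AA κ ρ R g x W m r - AA κ ρ R g x W m (r / 256) ≤ (1024 * K + 512) / κ / N₀ := by
      rw [hA] at hkA
      simp only at hkA
      rw [e, ← hr] at hkA
      exact hkA
    have h2 := mul_le_mul_of_nonneg_left hAk (show 0 ≤ r / 512 by positivity)
    have h3 : r / 512 * ((1024 * K + 512) / κ / N₀) ≤ τ / 2 * r := by
      have h4 : (4 * K + 2) / κ / N₀ ≤ τ := by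
        rw [div_lt_iff₀ (by positivity)] at hN₀
        rw [div_div, div_le_iff₀ (by positivity)]
        linarith
      have h5 := mul_le_mul_of_nonneg_left h4 (show 0 ≤ r / 2 by positivity)
      have e2 : r / 512 * ((1024 * K + 512) / κ / N₀) = r / 2 * ((4 * K + 2) / κ / N₀) := by
        ring
      rw [e2]
      linarith
    have h6 : 1024 / κ * ∫ y in closedBall x r, m y ≤ τ / 2 * r := by
      have h7 := mul_le_mul_of_nonneg_left hIm (show 0 ≤ 1024 / κ by positivity)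
      refine h7.trans ?_
      have e3 : 1024 / κ * (4 * μ * r) = (κ * η) * (τ * r) / 16777216 := by
        rw [hμd]
        field_simp
        norm_num
      rw [e3]
      have h8 : κ * η ≤ 1 := mul_le_one₀ hκ1 hη.le hη1
      have h10 : 0 ≤ τ * r := by positivity
      have h9 := mul_le_mul_of_nonneg_right h8 h10
      linarith
    linarith
  · have h1 := shell_lower hκ hκ1 hρ hR h hη hKS hμ hf hn2' hn1' hkn hs1 hs2 hw hws
    have hsub : Shell x s w ⊆ closedBall x R := by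
      intro y hy
      have h2 : |‖y - x‖ - s| ≤ w := hy
      rw [mem_closedBall, dist_eq_norm]
      have h3 := (abs_le.1 h2).2
      have h4 := geo_le (R / 4) (by positivity) k
      linarith
    have hSm : MeasurableSet (Shell x s w) := by
      have hc : Continuous fun y : V => |‖y - x‖ - s| := by fun_prop
      exact (isClosed_le hc continuous_const).measurableSet
    have h2 : ∫ y in Shell x s w ∩ {y | 0 < uu κ ρ g x y}, f y ≤ ∫ y in Shell x s w, f y := by
      refine setIntegral_mono_set ((int_cont h.fc x R).mono_set hsub) ?_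
        inter_subset_left.eventuallyLE
      exact (ae_restrict_iff' hSm).2 (Eventually.of_forall fun y hy => f_nonneg h (hsub hy))
    refine le_trans ?_ (h1.trans h2)
    apply mul_le_mul_of_nonneg_right _ hw.le
    apply mul_le_mul_of_nonneg_right _ hη.le
    have : κ * κ ≤ 1 * κ := mul_le_mul_of_nonneg_right hκ1 hκ.le
    rw [sq]
    linarith

end Pool.Agent.H2VL
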