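import Pool.Agent.Q85.VL.Fin
import Pool.Agent.Q85.VL.Ki
import Pool.Agent.H2VL.Mor
import Pool.Agent.H2VL.Pin
import Pool.Agent.H2VL.Mol
import Pool.Agent.Q85.CL.All

/-!
Project VL: the assembly of the parts (with the statements VL-10, VL-11, VL-12, VL-14 as
hypotheses).
-/

set_option autoImplicit false

open MeasureTheory Set Metric Filter Topology
open H459R3.NS Pool.Agent.W268.NS Pool.Agent.Q67.VD

namespace Pool.Agent.H2VL

open Pool.Agent.Q85.CC Pool.Agent.Q85.CL Pool.Agent.Q151.CC Pool.Agent.Q85.VL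

theorem lyap_of (hGood : StmGoodS) (hAna : StmAnaS) : StmLyap :=
  lyap Pool.Agent.Q284.CL.velL stmEnL stmEnS Pool.Agent.Q95.CL.regK Pool.Agent.Q81.CL.l1L
    hGood hAna morV pinV ks

end Pool.Agent.H2VL
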