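import Pool.Agent.Q85.VL.Defs

/-!
Project VL, part 1: the smooth step and the smooth distance.
-/

set_option autoImplicit false

open MeasureTheory Set Metric Filter Topology
open scoped ContDiff
open H459R3.NS Pool.Agent.W268.NS Pool.Agent.Q67.VD

namespace Pool.Agent.H2VL

open Pool.Agent.Q85.CC Pool.Agent.Q85.CL Pool.Agent.Q151.CC Pool.Agent.Q85.VL

/-! ### The smooth step -/

lemma stp_of_le {s : ℝ} (h : s ≤ 0) : stp s = 0 := by
  unfold stp
  have h1 : max 0 (min 1 s) = 0 := by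
    rw [min_eq_right (by linarith), max_eq_left h]
  rw [h1]
  norm_num

lemma stp_of_ge {s : ℝ} (h : 1 ≤ s) : stp s = 1 := by
  unfold stp
  have h1 : max 0 (min 1 s) = 1 := by
    rw [min_eq_left h, max_eq_right zero_le_one]
  rw [h1]
  norm_num

lemma stp_mid {s : ℝ} (h0 : 0 ≤ s) (h1 : s ≤ 1) : stp s = 3 * s ^ 2 - 2 * s ^ 3 := by
  unfold stp
  rw [min_eq_right h1, max_eq_right h0]

lemma stp'_of_le {s : ℝ} (h : s ≤ 0) : stp' s = 0 := by
  unfold stp'
  have h1 : max 0 (min 1 s) = 0 := by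
    rw [min_eq_right (by linarith), max_eq_left h]
  rw [h1]
  norm_num

lemma stp'_of_ge {s : ℝ} (h : 1 ≤ s) : stp' s = 0 := by
  unfold stp'
  have h1 : max 0 (min 1 s) = 1 := by
    rw [min_eq_left h, max_eq_right zero_le_one]
  rw [h1]
  norm_num

lemma stp'_mid {s : ℝ} (h0 : 0 ≤ s) (h1 : s ≤ 1) : stp' s = 6 * s * (1 - s) := by
  unfold stp'
  rw [min_eq_right h1, max_eq_right h0]

lemma hasDerivAt_of_quad {f : ℝ → ℝ} {a : ℝ} (h : ∀ s, |f s - f a| ≤ 3 * (s - a) ^ 2) :
    HasDerivAt f 0 a := by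
  rw [hasDerivAt_iff_isLittleO]
  rw [Asymptotics.isLittleO_iff]
  intro c hc
  have h1 : ∀ᶠ s in 𝓝 a, |s - a| < c / 3 := by
    have : Tendsto (fun s : ℝ => |s - a|) (𝓝 a) (𝓝 |a - a|) :=
      ((continuous_id.sub continuous_const).abs).tendsto a
    rw [sub_self, abs_zero] at this
    exact this.eventually (gt_mem_nhds (by positivity))
  filter_upwards [h1] with s hs
  simp only [smul_zero, sub_zero, Real.norm_eq_abs]
  refine (h s).trans ?_
  have h2 : (s - a) ^ 2 = |s - a| * |s - a| := by rw [← sq, sq_abs]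
  rw [h2]
  have h3 := abs_nonneg (s - a)
  nlinarith

lemma stp_hasDerivAt (s : ℝ) : HasDerivAt stp (stp' s) s := by
  rcases lt_trichotomy s 0 with h | h | h
  · rw [stp'_of_le h.le]
    refine (hasDerivAt_const s (0 : ℝ)).congr_of_eventuallyEq ?_
    filter_upwards [Iio_mem_nhds h] with t ht
    exact stp_of_le (le_of_lt ht)
  · subst h
    rw [stp'_of_le le_rfl]
    apply hasDerivAt_of_quad
    intro t
    rw [stp_of_le (le_refl (0 : ℝ)), sub_zero, sub_zero]
    rcases le_total t 0 with h1 | h1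
    · rw [stp_of_le h1, abs_zero]
      positivity
    · rcases le_total t 1 with h2 | h2
      · rw [stp_mid h1 h2, abs_le]
        constructor <;> nlinarith [sq_nonneg t, mul_nonneg (sq_nonneg t) h1,
          mul_nonneg (sq_nonneg t) (sub_nonneg.2 h2)]
      · rw [stp_of_ge h2, abs_one]
        nlinarith
  · rcases lt_trichotomy s 1 with h' | h' | h'
    · rw [stp'_mid h.le h'.le]
      have h1 : HasDerivAt (fun s : ℝ => 3 * s ^ 2 - 2 * s ^ 3) (6 * s * (1 - s)) s := by
        have h2 := ((hasDerivAt_pow 2 s).const_mul 3).sub ((hasDerivAt_pow 3 s).const_mul 2)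
        refine h2.congr_deriv ?_
        norm_num
        ring
      refine h1.congr_of_eventuallyEq ?_
      filter_upwards [Ioo_mem_nhds h h'] with t ht
      exact stp_mid ht.1.le ht.2.le
    · subst h'
      rw [stp'_of_ge le_rfl]
      apply hasDerivAt_of_quad
      intro t
      rw [stp_of_ge (le_refl (1 : ℝ))]
      rcases le_total t 0 with h1 | h1
      · rw [stp_of_le h1, abs_le]
        constructor <;> nlinarith
      · rcases le_total t 1 with h2 | h2
        · rw [stp_mid h1 h2]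
          have e : 3 * t ^ 2 - 2 * t ^ 3 - 1 = -((t - 1) ^ 2 * (1 + 2 * t)) := by ring
          rw [e, abs_neg, abs_of_nonneg (by positivity)]
          nlinarith [sq_nonneg (t - 1)]
        · rw [stp_of_ge h2, sub_self, abs_zero]
          positivity
    · rw [stp'_of_ge h'.le]
      refine (hasDerivAt_const s (1 : ℝ)).congr_of_eventuallyEq ?_
      filter_upwards [Ioi_mem_nhds h'] with t ht
      exact stp_of_ge (le_of_lt ht)

lemma stp'_cont : Continuous stp' := by
  unfold stp'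
  fun_prop

lemma stp_smooth : ContDiff ℝ 1 stp := by
  rw [contDiff_one_iff_deriv]
  refine ⟨fun s => (stp_hasDerivAt s).differentiableAt, ?_⟩
  have : deriv stp = stp' := funext fun s => (stp_hasDerivAt s).deriv
  rw [this]
  exact stp'_cont

lemma stp'_nonneg (s : ℝ) : 0 ≤ stp' s := by
  unfold stp'
  have h1 : 0 ≤ max 0 (min 1 s) := le_max_left _ _
  have h2 : max 0 (min 1 s) ≤ 1 := max_le zero_le_one (min_le_left _ _)
  have h3 : 0 ≤ 1 - max 0 (min 1 s) := by linarith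
  positivity

lemma stp'_le (s : ℝ) : stp' s ≤ 3 / 2 := by
  unfold stp'
  nlinarith [sq_nonneg (max 0 (min 1 s) - 1 / 2)]

lemma stp'_le2 (s : ℝ) : stp' s ≤ 2 := (stp'_le s).trans (by norm_num)

lemma stp_mono : Monotone stp := by
  apply monotone_of_deriv_nonneg (stp_smooth.differentiable one_ne_zero)
  intro s
  rw [(stp_hasDerivAt s).deriv]
  exact stp'_nonneg s

lemma stp_nonneg (s : ℝ) : 0 ≤ stp s := by
  have h := stp_mono (min_le_left s 0)
  rwa [stp_of_le (min_le_right s 0)] at h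

lemma stp_le_one (s : ℝ) : stp s ≤ 1 := by
  have h := stp_mono (le_max_left s 1)
  rwa [stp_of_ge (le_max_right s 1)] at h

lemma stp'_ne {s : ℝ} (h : stp' s ≠ 0) : 0 < s ∧ s < 1 := by
  constructor
  · by_contra hc
    exact h (stp'_of_le (not_lt.1 hc))
  · by_contra hc
    exact h (stp'_of_ge (not_lt.1 hc))

lemma stp_ne_zero {s : ℝ} (h : stp s ≠ 0) : 0 < s := by
  by_contra hc
  exact h (stp_of_le (not_lt.1 hc))

lemma stp_ne_one {s : ℝ} (h : stp s ≠ 1) : s < 1 := by
  by_contra hc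
  exact h (stp_of_ge (not_lt.1 hc))

/-! ### The Euclidean length -/

lemma len_sq (a : V) : len a ^ 2 = a ⬝ᵥ a := by
  unfold len
  exact Real.sq_sqrt (dot_nn a)

lemma len_nonneg (a : V) : 0 ≤ len a := Real.sqrt_nonneg _

lemma dot_le (a b : V) : a ⬝ᵥ b ≤ len a * len b := by
  have h := cs a b
  rw [← len_sq, ← len_sq, ← mul_pow] at h
  exact (abs_le_of_sq_le_sq' h (mul_nonneg (len_nonneg a) (len_nonneg b))).2

lemma abs_dot_le (a b : V) : |a ⬝ᵥ b| ≤ len a * len b := by
  have h := cs a b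
  rw [← len_sq, ← len_sq, ← mul_pow] at h
  exact abs_le_of_sq_le_sq h (mul_nonneg (len_nonneg a) (len_nonneg b))

lemma len_smul (c : ℝ) (a : V) : len (c • a) = |c| * len a := by
  unfold len
  rw [smul_dotProduct, dotProduct_smul, smul_eq_mul, smul_eq_mul, ← mul_assoc, Real.sqrt_mul
    (mul_self_nonneg c), Real.sqrt_mul_self_eq_abs]

lemma len_neg (a : V) : len (-a) = len a := by
  unfold len
  simp

lemma len_sub_comm (a b : V) : len (a - b) = len (b - a) := by
  rw [← len_neg, neg_sub]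

lemma len_add_le (a b : V) : len (a + b) ≤ len a + len b := by
  have h1 : len (a + b) ^ 2 ≤ (len a + len b) ^ 2 := by
    rw [len_sq, add_dotProduct, dotProduct_add, dotProduct_add, dotProduct_comm b a]
    have h2 := dot_le a b
    have h3 := len_sq a
    have h4 := len_sq b
    nlinarith
  exact abs_le_of_sq_le_sq' h1 (add_nonneg (len_nonneg a) (len_nonneg b)) |>.2

lemma norm_le_len (a : V) : ‖a‖ ≤ len a := by
  rw [pi_norm_le_iff_of_nonneg (len_nonneg a)]
  intro i
  rw [Real.norm_eq_abs]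
  have h := coord_sq a i
  rw [← len_sq] at h
  exact abs_le_of_sq_le_sq h (len_nonneg a)

lemma len_le_norm (a : V) : len a ≤ √3 * ‖a‖ := by
  have h1 : len a ^ 2 ≤ (√3 * ‖a‖) ^ 2 := by
    rw [len_sq, dot3, mul_pow, Real.sq_sqrt (by norm_num)]
    have h2 : ∀ i, a i * a i ≤ ‖a‖ ^ 2 := by
      intro i
      have h3 := norm_le_pi_norm a i
      rw [Real.norm_eq_abs] at h3
      have h4 := abs_nonneg (a i)
      rw [← abs_mul_abs_self, sq]
      exact mul_le_mul h3 h3 h4 (norm_nonneg _)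
    linarith [h2 0, h2 1, h2 2]
  exact abs_le_of_sq_le_sq' h1 (by positivity) |>.2

lemma sqrt3_le : √(3 : ℝ) ≤ 7 / 4 := by
  rw [Real.sqrt_le_left (by norm_num)]
  norm_num

lemma len_le_norm' (a : V) : len a ≤ 7 / 4 * ‖a‖ :=
  (len_le_norm a).trans (mul_le_mul_of_nonneg_right sqrt3_le (norm_nonneg _))

/-- The derivative of a function with Lipschitz constant one. -/
lemma fderiv_le_len {f : V → ℝ} {y : V} (hf : DifferentiableAt ℝ f y)
    (hL : ∀ y z, |f y - f z| ≤ len (y - z)) (n : V) : |fderiv ℝ f y n| ≤ len n := by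
  have h1 : HasDerivAt (fun t : ℝ => f (y + t • n)) (fderiv ℝ f y n) 0 := by
    have h2 : HasDerivAt (fun t : ℝ => y + t • n) n 0 := by
      simpa using ((hasDerivAt_id (0 : ℝ)).smul_const n).const_add y
    have h3 : HasFDerivAt f (fderiv ℝ f y) (y + (0 : ℝ) • n) := by
      rw [zero_smul, add_zero]
      exact hf.hasFDerivAt
    exact h3.comp_hasDerivAt (0 : ℝ) h2
  have h4 := h1.le_of_lip' (C := len n) (len_nonneg n) (Eventually.of_forall fun t => by
    rw [zero_smul, add_zero, Real.norm_eq_abs, sub_zero, Real.norm_eq_abs]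
    refine (hL _ _).trans ?_
    rw [add_sub_cancel_left, len_smul, mul_comm])
  rwa [Real.norm_eq_abs] at h4

/-! ### The smooth distance -/

lemma ds_sq (x : V) (ρ : ℝ) (y : V) : ds x ρ y ^ 2 = len (y - x) ^ 2 + ρ ^ 2 := by
  unfold ds
  rw [Real.sq_sqrt (add_nonneg (dot_nn _) (sq_nonneg _)), len_sq]

lemma ds_nonneg (x : V) (ρ : ℝ) (y : V) : 0 ≤ ds x ρ y := Real.sqrt_nonneg _

lemma len_le_ds (x : V) (ρ : ℝ) (y : V) : len (y - x) ≤ ds x ρ y := by
  have h := ds_sq x ρ y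
  exact abs_le_of_sq_le_sq' (by rw [h]; nlinarith [sq_nonneg ρ]) (ds_nonneg x ρ y) |>.2

lemma le_ds (x : V) (ρ : ℝ) (y : V) : ρ ≤ ds x ρ y := by
  have h := ds_sq x ρ y
  exact abs_le_of_sq_le_sq' (by rw [h]; nlinarith [sq_nonneg (len (y - x))]) (ds_nonneg x ρ y) |>.2

lemma ds_le {ρ : ℝ} (hρ : 0 ≤ ρ) (x y : V) : ds x ρ y ≤ len (y - x) + ρ := by
  have h := ds_sq x ρ y
  have h1 := len_nonneg (y - x)
  exact abs_le_of_sq_le_sq' (by rw [h]; nlinarith) (by positivity) |>.2

lemma norm_le_ds (x : V) (ρ : ℝ) (y : V) : ‖y - x‖ ≤ ds x ρ y :=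
  (norm_le_len _).trans (len_le_ds x ρ y)

lemma ds_le_two {ρ : ℝ} (hρ : 0 ≤ ρ) {x y : V} (h : ‖y - x‖ ≤ ρ) : ds x ρ y ≤ 2 * ρ := by
  have h1 := ds_sq x ρ y
  have h2 : len (y - x) ^ 2 ≤ 3 * ρ ^ 2 := by
    have h3 := len_le_norm (y - x)
    have h4 : len (y - x) ^ 2 ≤ (√3 * ‖y - x‖) ^ 2 := pow_le_pow_left₀ (len_nonneg _) h3 2
    rw [mul_pow, Real.sq_sqrt (by norm_num)] at h4
    have h5 : ‖y - x‖ ^ 2 ≤ ρ ^ 2 := pow_le_pow_left₀ (norm_nonneg _) h 2
    linarith
  exact abs_le_of_sq_le_sq' (by rw [h1]; nlinarith) (by positivity) |>.2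

lemma ds_lip {ρ : ℝ} (hρ : 0 < ρ) (x y z : V) : |ds x ρ y - ds x ρ z| ≤ len (y - z) := by
  have key : ∀ y z : V, ds x ρ y - ds x ρ z ≤ len (y - z) := by
    intro y z
    have hy := ds_sq x ρ y
    have hz := ds_sq x ρ z
    have h1 : ds x ρ y ^ 2 - ds x ρ z ^ 2 = (y - z) ⬝ᵥ ((y - x) + (z - x)) := by
      rw [hy, hz, len_sq, len_sq]
      simp only [dot3, Pi.sub_apply, Pi.add_apply]
      ring
    have h2 := dot_le (y - z) ((y - x) + (z - x))
    have h3 := len_add_le (y - x) (z - x)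
    have h4 := len_le_ds x ρ y
    have h5 := len_le_ds x ρ z
    have h6 : 0 < ds x ρ y + ds x ρ z := by
      have := le_ds x ρ y
      have := le_ds x ρ z
      linarith
    have h7 : (ds x ρ y - ds x ρ z) * (ds x ρ y + ds x ρ z)
        ≤ len (y - z) * (ds x ρ y + ds x ρ z) := by
      have e : (ds x ρ y - ds x ρ z) * (ds x ρ y + ds x ρ z) = ds x ρ y ^ 2 - ds x ρ z ^ 2 := by
        ring
      rw [e, h1]
      refine h2.trans (mul_le_mul_of_nonneg_left ?_ (len_nonneg _))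
      linarith
    exact le_of_mul_le_mul_right h7 h6
  rw [abs_le]
  constructor
  · have := key z y
    rw [len_sub_comm] at this
    linarith
  · exact key y z

lemma ds_smooth (x : V) {ρ : ℝ} (hρ : 0 < ρ) : ContDiff ℝ ∞ (ds x ρ) := by
  unfold ds
  refine ContDiff.sqrt ?_ fun y => ?_
  · have e : (fun y : V => (y - x) ⬝ᵥ (y - x) + ρ ^ 2) = fun y : V =>
        (y 0 - x 0) * (y 0 - x 0) + (y 1 - x 1) * (y 1 - x 1) + (y 2 - x 2) * (y 2 - x 2)
          + ρ ^ 2 := by
      funext y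
      simp only [dot3, Pi.sub_apply]
    rw [e]
    fun_prop
  · have := dot_nn (y - x)
    positivity

lemma ds_fderiv (x : V) {ρ : ℝ} (hρ : 0 < ρ) (y n : V) : |fderiv ℝ (ds x ρ) y n| ≤ len n :=
  fderiv_le_len ((ds_smooth x hρ).differentiable (by simp) y) (ds_lip hρ x) n

theorem bas : StmBas :=
  ⟨stp_hasDerivAt, stp_smooth, stp'_cont, stp_mono,
    fun s => ⟨stp_nonneg s, stp_le_one s, stp'_nonneg s, stp'_le2 s⟩,
    fun _ h => stp_of_le h, fun _ h => stp_of_ge h, fun _ h => stp'_ne h,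
    fun _ h => stp_ne_zero h, fun _ h => stp_ne_one h,
    fun x ρ hρ => ⟨ds_smooth x hρ, len_le_ds x ρ, le_ds x ρ, fun y => ds_le hρ.le x y,
      norm_le_ds x ρ, fun _ h => ds_le_two hρ.le h, ds_lip hρ x, ds_fderiv x hρ⟩⟩

end Pool.Agent.H2VL
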