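import Pool.Agent.H2VL.Fin
import Pool.Agent.Q85.CL.PerD
import Pool.Agent.Q95.CL.Far
import Pool.Agent.Q285.CL.WSc
import Pool.Agent.Q284.CL.Dom

/-!
Project VL: chains of vortex arcs at the singular points (with the parts VL-10, VL-11, VL-12, VL-14
as hypotheses).
-/

set_option autoImplicit false

open MeasureTheory Set Metric Filter Topology
open H459R3.NS Pool.Agent.W268.NS Pool.Agent.Q67.VD

namespace Pool.Agent.H2VL

open Pool.Agent.Q85.CC Pool.Agent.Q85.CL Pool.Agent.Q151.CC Pool.Agent.Q85.VL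

/-- For all `T₀ < T`, `ε > 0`, `R > 0` and all nonnegative continuous thresholds `m(t)` in the Kato
class there is a time `t` in `(T₀, T)` such that, for every orientation `θ` of the vorticity, the
arcs of `θ ω` in `{|y - a| ≤ R, |ω| > m}` form a closed chain with the relative gap `ε`. -/
def ChainsAt (T : ℝ) (u : ℝ → V → V) (a : V) : Prop :=
  ∀ (T₀ ε R : ℝ) (m : ℝ → V → ℝ), 0 ≤ T₀ → T₀ < T → 0 < ε → 0 < R →
    (∀ t ∈ Ioo T₀ T, Continuous (m t)) → (∀ t ∈ Ioo T₀ T, ∀ y, 0 ≤ m t y) → Kato T₀ T a R m →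
    ∃ t ∈ Ioo T₀ T, ∀ θ : V → ℝ, Orient θ a R (vort (u t)) →
      Chained (fun y => θ y • vort (u t) y) {y | ‖y - a‖ ≤ R ∧ m t y < om (u t) y} ε

theorem chainsD (hGood : StmGoodS) (hAna : StmAnaS) (hWd : StmWd) (hG : StmG)
    {ν T E : ℝ} {Ω : Set V} {u : ℝ → V → V} {p : ℝ → V → ℝ} (hν : 0 < ν) (h : DSl ν T E Ω u p)
    {a : V} (ha : a ∈ Ω) (hs : Sing T u a) : ChainsAt T u a := by
  intro T₀ ε R m hT0 hT₀ hε hR hmc hm0 hK
  exact chain_D (lyap_of hGood hAna) hWd hG mol Pool.Agent.Q284.CL.dom hν h ha hs hT0 hT₀ hε hR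
    hmc hm0 hK

theorem chainsW (hGood : StmGoodS) (hAna : StmAnaS) (hWd : StmWd) (hG : StmG)
    {ν T E : ℝ} {u : ℝ → V → V} {p : ℝ → V → ℝ} (hν : 0 < ν) (h : WSl ν T E u p) :
    (Blow T u → ∃ a, Sing T u a) ∧ ∀ a, Sing T u a → ChainsAt T u a :=
  ⟨fun hB => sing_whole Pool.Agent.Q95.CL.far Pool.Agent.Q285.CL.wsc hν h hB,
    fun a hs => chainsD hGood hAna hWd hG hν (whole_D h a) (mem_ball_self (by norm_num)) hs⟩

theorem chainsP (hGood : StmGoodS) (hAna : StmAnaS) (hWd : StmWd) (hG : StmG)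
    {ν T : ℝ} {u : ℝ → V → V} {p : ℝ → V → ℝ} (hν : 0 < ν) (h : IsSol ν T u p) :
    (Blow T u → ∃ a, Sing T u a) ∧ ∀ a, Sing T u a → ChainsAt T u a := by
  refine ⟨fun hB => sing_per h hB, fun a hs => ?_⟩
  obtain ⟨p', h'⟩ := perD hν hs.pos h a
  exact chainsD hGood hAna hWd hG hν h' (mem_ball_self (by norm_num)) hs

end Pool.Agent.H2VL
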