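import Pool.Agent.H2VL.Bas

/-!
Project VL, parts 2 to 4: fluxes at the scale `r`.
-/

set_option autoImplicit false

open MeasureTheory Set Metric Filter Topology
open scoped ContDiff
open H459R3.NS Pool.Agent.W268.NS Pool.Agent.Q67.VD

namespace Pool.Agent.H2VL

open Pool.Agent.Q85.CC Pool.Agent.Q85.CL Pool.Agent.Q151.CC Pool.Agent.Q85.VL

section

variable {κ ρ R : ℝ} {x : V} {f m : V → ℝ} {W : V → V} {g : V → ℝ}

/-! ### The two functions -/

lemma uw (κ ρ : ℝ) (g : V → ℝ) (x y : V) :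
    uu κ ρ g x y - ww κ ρ g x y = κ / 4 * ds x ρ y := by
  unfold uu ww
  ring

lemma uu_smooth (hg : ContDiff ℝ 1 g) (hρ : 0 < ρ) : ContDiff ℝ 1 (uu κ ρ g x) := by
  unfold uu
  exact (hg.sub contDiff_const).sub (contDiff_const.mul ((ds_smooth x hρ).of_le (by simp)))

lemma ww_smooth (hg : ContDiff ℝ 1 g) (hρ : 0 < ρ) : ContDiff ℝ 1 (ww κ ρ g x) := by
  unfold ww
  exact (hg.sub contDiff_const).sub (contDiff_const.mul ((ds_smooth x hρ).of_le (by simp)))

/-- The derivative of `g - c - b d` in the direction `n`. -/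
lemma cone_fd (hg : ContDiff ℝ 1 g) (hρ : 0 < ρ) (b c : ℝ) (y n : V) :
    fderiv ℝ (fun y => g y - c - b * ds x ρ y) y n
      = fderiv ℝ g y n - b * fderiv ℝ (ds x ρ) y n := by
  have h1 : HasFDerivAt g (fderiv ℝ g y) y := (hg.differentiable one_ne_zero y).hasFDerivAt
  have h2 : HasFDerivAt (ds x ρ) (fderiv ℝ (ds x ρ) y) y :=
    ((ds_smooth x hρ).differentiable (by simp) y).hasFDerivAt
  have h3 := (h1.sub_const c).sub (h2.const_mul b)
  have h4 : fderiv ℝ (fun y => g y - c - b * ds x ρ y) y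
      = fderiv ℝ g y - b • fderiv ℝ (ds x ρ) y := h3.fderiv
  rw [h4]
  simp [smul_eq_mul]

lemma g_fd_le (h : LF κ R x f m W g) (y n : V) : |fderiv ℝ g y n| ≤ len n :=
  fderiv_le_len (h.gs.differentiable one_ne_zero y) h.lip n

lemma cone_lo (h : LF κ R x f m W g) {z : V} {δ : ℝ} (hδ : 0 < δ) {b : ℝ} (hb : 0 ≤ b) (c : ℝ)
    {y : V} (hy : y ∈ closedBall x R) :
    (κ - b) * f y ≤ fderiv ℝ (fun y => g y - c - b * ds z δ y) y (W y) + m y := by
  rw [cone_fd h.gs hδ]
  have h1 := h.lo y hy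
  have h2 := (abs_le.1 (ds_fderiv z hδ y (W y))).2
  have h3 := h.up y hy
  have h4 : b * fderiv ℝ (ds z δ) y (W y) ≤ b * f y := mul_le_mul_of_nonneg_left (h2.trans h3) hb
  linarith

lemma cone_up (h : LF κ R x f m W g) {z : V} {δ : ℝ} (hδ : 0 < δ) {b : ℝ} (hb : 0 ≤ b) (c : ℝ)
    {y : V} (hy : y ∈ closedBall x R) :
    fderiv ℝ (fun y => g y - c - b * ds z δ y) y (W y) ≤ (1 + b) * f y := by
  rw [cone_fd h.gs hδ]
  have h1 := (abs_le.1 (g_fd_le h y (W y))).2
  have h2 := (abs_le.1 (ds_fderiv z hδ y (W y))).1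
  have h3 := h.up y hy
  have h4 : b * -(f y) ≤ b * fderiv ℝ (ds z δ) y (W y) :=
    mul_le_mul_of_nonneg_left (by linarith) hb
  linarith

lemma f_nonneg (h : LF κ R x f m W g) {y : V} (hy : y ∈ closedBall x R) : 0 ≤ f y :=
  (len_nonneg _).trans (h.up y hy)

lemma uu_lo (h : LF κ R x f m W g) (hκ : 0 < κ) (hρ : 0 < ρ) {y : V} (hy : y ∈ closedBall x R) :
    κ / 2 * f y ≤ fderiv ℝ (uu κ ρ g x) y (W y) + m y := by
  have h1 := cone_lo h (z := x) hρ (b := κ / 2) (by positivity) (g x) hy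
  have e : κ - κ / 2 = κ / 2 := by ring
  rw [e] at h1
  exact h1

lemma uu_lo0 (h : LF κ R x f m W g) (hκ : 0 < κ) (hρ : 0 < ρ) {y : V} (hy : y ∈ closedBall x R) :
    0 ≤ fderiv ℝ (uu κ ρ g x) y (W y) + m y :=
  le_trans (mul_nonneg (by positivity) (f_nonneg h hy)) (uu_lo h hκ hρ hy)

lemma uu_up (h : LF κ R x f m W g) (hκ : 0 < κ) (hκ1 : κ ≤ 1) (hρ : 0 < ρ) {y : V}
    (hy : y ∈ closedBall x R) : fderiv ℝ (uu κ ρ g x) y (W y) ≤ 2 * f y := by
  have h1 := cone_up h (z := x) hρ (b := κ / 2) (by positivity) (g x) hy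
  have h2 : (1 + κ / 2) * f y ≤ 2 * f y :=
    mul_le_mul_of_nonneg_right (by linarith) (f_nonneg h hy)
  exact h1.trans h2

lemma ww_lo (h : LF κ R x f m W g) (hκ : 0 < κ) (hρ : 0 < ρ) {y : V} (hy : y ∈ closedBall x R) :
    κ / 4 * f y ≤ fderiv ℝ (ww κ ρ g x) y (W y) + m y := by
  have h1 := cone_lo h (z := x) hρ (b := 3 * κ / 4) (by positivity) (g x) hy
  have e : κ - 3 * κ / 4 = κ / 4 := by ring
  rw [e] at h1
  exact h1

lemma ww_lo0 (h : LF κ R x f m W g) (hκ : 0 < κ) (hρ : 0 < ρ) {y : V} (hy : y ∈ closedBall x R) :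
    -m y ≤ fderiv ℝ (ww κ ρ g x) y (W y) := by
  have h1 := ww_lo h hκ hρ hy
  have h2 : 0 ≤ κ / 4 * f y := mul_nonneg (by positivity) (f_nonneg h hy)
  linarith

/-! ### The factors -/

/-- The derivative factor `ψ`. -/
noncomputable def psi (κ ρ : ℝ) (g : V → ℝ) (x : V) (r : ℝ) (y : V) : ℝ :=
  stp' ((uu κ ρ g x y - κ * r / 64) / (κ * r / 64)) / (κ * r / 64)

/-- The derivative of `TT` with respect to `ww`. -/
noncomputable def tau (κ ρ : ℝ) (g : V → ℝ) (x : V) (r : ℝ) (y : V) : ℝ :=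
  stp' ((ww κ ρ g x y + κ * r / 8) / (κ * r / 16)) / (κ * r / 16)

/-- The derivative along `W`. -/
noncomputable def dv (F : V → ℝ) (W : V → V) (y : V) : ℝ := fderiv ℝ F y (W y)

lemma pr_eq (κ ρ : ℝ) (g : V → ℝ) (x : V) (W : V → V) (m : V → ℝ) (r : ℝ) (y : V) :
    pr κ ρ g x W m r y = TT κ ρ g x r y * (psi κ ρ g x r y * (dv (uu κ ρ g x) W y + m y)) := rfl

lemma stp_comp {w : V → ℝ} (hw : ContDiff ℝ 1 w) (a b : ℝ) :
    ContDiff ℝ 1 (fun y => stp ((w y + a) / b)) :=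
  stp_smooth.comp ((hw.add contDiff_const).div_const b)

lemma stp_comp_fd {w : V → ℝ} (hw : ContDiff ℝ 1 w) (a b : ℝ) (y n : V) :
    fderiv ℝ (fun y => stp ((w y + a) / b)) y n
      = stp' ((w y + a) / b) / b * fderiv ℝ w y n := by
  have h1 : HasFDerivAt w (fderiv ℝ w y) y := (hw.differentiable one_ne_zero y).hasFDerivAt
  have h2 : HasFDerivAt (fun y => (w y + a) / b) (b⁻¹ • fderiv ℝ w y) y := by
    have := (h1.add_const a).mul_const b⁻¹
    simpa [div_eq_mul_inv] using this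
  have h3 := (stp_hasDerivAt ((w y + a) / b)).comp_hasFDerivAt y h2
  have h4 : fderiv ℝ (fun y => stp ((w y + a) / b)) y
      = stp' ((w y + a) / b) • (b⁻¹ • fderiv ℝ w y) := h3.fderiv
  rw [h4]
  simp only [ContinuousLinearMap.smul_apply, smul_eq_mul]
  ring

lemma TT_smooth (hg : ContDiff ℝ 1 g) (hρ : 0 < ρ) (r : ℝ) : ContDiff ℝ 1 (TT κ ρ g x r) :=
  stp_comp (ww_smooth hg hρ) _ _

lemma PS_smooth (hg : ContDiff ℝ 1 g) (hρ : 0 < ρ) (r : ℝ) : ContDiff ℝ 1 (PS κ ρ g x r) := by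
  have h := stp_comp (uu_smooth (κ := κ) (x := x) hg hρ) (-(κ * r / 64)) (κ * r / 64)
  simp only [← sub_eq_add_neg] at h
  exact h

lemma TT_dv (hg : ContDiff ℝ 1 g) (hρ : 0 < ρ) (r : ℝ) (y : V) :
    dv (TT κ ρ g x r) W y = tau κ ρ g x r y * dv (ww κ ρ g x) W y :=
  stp_comp_fd (ww_smooth hg hρ) _ _ _ _

lemma PS_dv (hg : ContDiff ℝ 1 g) (hρ : 0 < ρ) (r : ℝ) (y : V) :
    dv (PS κ ρ g x r) W y = psi κ ρ g x r y * dv (uu κ ρ g x) W y := by
  have h := stp_comp_fd (uu_smooth (κ := κ) (x := x) hg hρ) (-(κ * r / 64)) (κ * r / 64) y (W y)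
  simp only [← sub_eq_add_neg] at h
  exact h

lemma TT_nonneg (r : ℝ) (y : V) : 0 ≤ TT κ ρ g x r y := stp_nonneg _

lemma TT_le_one (r : ℝ) (y : V) : TT κ ρ g x r y ≤ 1 := stp_le_one _

lemma PS_nonneg (r : ℝ) (y : V) : 0 ≤ PS κ ρ g x r y := stp_nonneg _

lemma PS_le_one (r : ℝ) (y : V) : PS κ ρ g x r y ≤ 1 := stp_le_one _

lemma psi_nonneg (hκ : 0 < κ) {r : ℝ} (hr : 0 < r) (y : V) : 0 ≤ psi κ ρ g x r y :=
  div_nonneg (stp'_nonneg _) (by positivity)

lemma psi_le (hκ : 0 < κ) {r : ℝ} (hr : 0 < r) (y : V) : psi κ ρ g x r y ≤ 128 / (κ * r) := by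
  unfold psi
  rw [div_le_div_iff₀ (by positivity) (by positivity)]
  have h := stp'_le2 ((uu κ ρ g x y - κ * r / 64) / (κ * r / 64))
  have h2 : stp' ((uu κ ρ g x y - κ * r / 64) / (κ * r / 64)) * (κ * r) ≤ 2 * (κ * r) :=
    mul_le_mul_of_nonneg_right h (by positivity)
  linarith

lemma tau_nonneg (hκ : 0 < κ) {r : ℝ} (hr : 0 < r) (y : V) : 0 ≤ tau κ ρ g x r y :=
  div_nonneg (stp'_nonneg _) (by positivity)

lemma tau_le (hκ : 0 < κ) {r : ℝ} (hr : 0 < r) (y : V) : tau κ ρ g x r y ≤ 32 / (κ * r) := by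
  unfold tau
  rw [div_le_div_iff₀ (by positivity) (by positivity)]
  have h := stp'_le2 ((ww κ ρ g x y + κ * r / 8) / (κ * r / 16))
  have h2 : stp' ((ww κ ρ g x y + κ * r / 8) / (κ * r / 16)) * (κ * r) ≤ 2 * (κ * r) :=
    mul_le_mul_of_nonneg_right h (by positivity)
  linarith

lemma psi_ne (hκ : 0 < κ) {r : ℝ} (hr : 0 < r) {y : V} (h : psi κ ρ g x r y ≠ 0) :
    κ * r / 64 < uu κ ρ g x y ∧ uu κ ρ g x y < κ * r / 32 := by
  have h1 : stp' ((uu κ ρ g x y - κ * r / 64) / (κ * r / 64)) ≠ 0 := by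
    intro h0
    apply h
    unfold psi
    rw [h0, zero_div]
  obtain ⟨h2, h3⟩ := stp'_ne h1
  have hb : 0 < κ * r / 64 := by positivity
  have h4 : 0 < uu κ ρ g x y - κ * r / 64 := by
    by_contra hc
    exact absurd h2 (not_lt.2 (div_nonpos_of_nonpos_of_nonneg (not_lt.1 hc) hb.le))
  rw [div_lt_one hb] at h3
  constructor <;> linarith

lemma tau_ne (hκ : 0 < κ) {r : ℝ} (hr : 0 < r) {y : V} (h : tau κ ρ g x r y ≠ 0) :
    -(κ * r / 8) < ww κ ρ g x y ∧ ww κ ρ g x y < -(κ * r / 16) := by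
  have h1 : stp' ((ww κ ρ g x y + κ * r / 8) / (κ * r / 16)) ≠ 0 := by
    intro h0
    apply h
    unfold tau
    rw [h0, zero_div]
  obtain ⟨h2, h3⟩ := stp'_ne h1
  have hb : 0 < κ * r / 16 := by positivity
  have h4 : 0 < ww κ ρ g x y + κ * r / 8 := by
    by_contra hc
    exact absurd h2 (not_lt.2 (div_nonpos_of_nonpos_of_nonneg (not_lt.1 hc) hb.le))
  rw [div_lt_one hb] at h3
  constructor <;> linarith

lemma TT_ne (hκ : 0 < κ) {r : ℝ} (hr : 0 < r) {y : V} (h : TT κ ρ g x r y ≠ 0) :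
    -(κ * r / 8) < ww κ ρ g x y := by
  have h2 := stp_ne_zero h
  have hb : 0 < κ * r / 16 := by positivity
  by_contra hc
  exact absurd h2 (not_lt.2 (div_nonpos_of_nonpos_of_nonneg (by linarith) hb.le))

lemma TT_one (hκ : 0 < κ) {r : ℝ} (hr : 0 < r) {y : V} (h : -(κ * r / 16) ≤ ww κ ρ g x y) :
    TT κ ρ g x r y = 1 := by
  apply stp_of_ge
  rw [le_div_iff₀ (by positivity)]
  linarith

lemma PS_ne (hκ : 0 < κ) {r : ℝ} (hr : 0 < r) {y : V} (h : PS κ ρ g x r y ≠ 0) :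
    κ * r / 64 < uu κ ρ g x y := by
  have h2 := stp_ne_zero h
  have hb : 0 < κ * r / 64 := by positivity
  by_contra hc
  exact absurd h2 (not_lt.2 (div_nonpos_of_nonpos_of_nonneg (by linarith) hb.le))

lemma PS_zero (hκ : 0 < κ) {r : ℝ} (hr : 0 < r) {y : V} (h : uu κ ρ g x y ≤ κ * r / 64) :
    PS κ ρ g x r y = 0 := by
  by_contra hc
  exact absurd (PS_ne hκ hr hc) (not_lt.2 h)

lemma PS_one (hκ : 0 < κ) {r : ℝ} (hr : 0 < r) {y : V} (h : κ * r / 32 ≤ uu κ ρ g x y) :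
    PS κ ρ g x r y = 1 := by
  apply stp_of_ge
  rw [le_div_iff₀ (by positivity)]
  linarith

/-- The support of the density of the flux. -/
lemma ds_lt (hκ : 0 < κ) {r : ℝ} {y : V} (h1 : uu κ ρ g x y < κ * r / 32)
    (h2 : -(κ * r / 8) < ww κ ρ g x y) : ds x ρ y < 5 / 8 * r := by
  have h := uw κ ρ g x y
  have h3 : κ / 4 * ds x ρ y < κ / 4 * (5 / 8 * r) := by
    have e : κ / 4 * (5 / 8 * r) = κ * r / 32 + κ * r / 8 := by ring
    linarith
  exact lt_of_mul_lt_mul_left h3 (by positivity)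

lemma mem_of_ds {r : ℝ} {y : V} (h : ds x ρ y ≤ r) : y ∈ closedBall x r := by
  rw [mem_closedBall, dist_eq_norm]
  exact (norm_le_ds x ρ y).trans h

lemma pr_nonneg (h : LF κ R x f m W g) (hκ : 0 < κ) (hρ : 0 < ρ) {r : ℝ} (hr : 0 < r) {y : V}
    (hy : y ∈ closedBall x R) : 0 ≤ pr κ ρ g x W m r y := by
  rw [pr_eq]
  exact mul_nonneg (TT_nonneg r y) (mul_nonneg (psi_nonneg hκ hr y) (uu_lo0 h hκ hρ hy))

lemma pr_zero (hκ : 0 < κ) {r : ℝ} (hr : 0 < r) {y : V} (hy : y ∉ closedBall x r) :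
    pr κ ρ g x W m r y = 0 := by
  by_contra hc
  rw [pr_eq] at hc
  have h1 := left_ne_zero_of_mul hc
  have h2 := left_ne_zero_of_mul (right_ne_zero_of_mul hc)
  have h3 := ds_lt hκ (psi_ne hκ hr h2).2 (TT_ne hκ hr h1)
  exact hy (mem_of_ds (by linarith))

lemma dv_cont {F : V → ℝ} (hF : ContDiff ℝ 1 F) (hW : Continuous W) : Continuous (dv F W) :=
  (hF.continuous_fderiv one_ne_zero).clm_apply hW

lemma pr_cont (h : LF κ R x f m W g) (hρ : 0 < ρ) (r : ℝ) :
    Continuous (pr κ ρ g x W m r) := by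
  have h1 : Continuous (uu κ ρ g x) := (uu_smooth h.gs hρ).continuous
  have h2 : Continuous (psi κ ρ g x r) := by
    unfold psi
    exact (stp'_cont.comp ((h1.sub continuous_const).div_const _)).div_const _
  have h3 : Continuous (dv (uu κ ρ g x) W) := dv_cont (uu_smooth h.gs hρ) h.wd.cont
  exact (TT_smooth h.gs hρ r).continuous.mul (h2.mul (h3.add h.mc))

lemma AA_nonneg (h : LF κ R x f m W g) (hκ : 0 < κ) (hρ : 0 < ρ) {r : ℝ} (hr : 0 < r) :
    0 ≤ AA κ ρ R g x W m r :=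
  setIntegral_nonneg isClosed_closedBall.measurableSet fun _ hy => pr_nonneg h hκ hρ hr hy

lemma int_cont {φ : V → ℝ} (hφ : Continuous φ) (z : V) (s : ℝ) : IntegrableOn φ (closedBall z s) :=
  hφ.continuousOn.integrableOn_compact (isCompact_closedBall z s)

/-! ### The divergence identity with a remainder -/

/-- The main comparison. -/
lemma master (h : LF κ R x f m W g) {F a : V → ℝ} (hF : ContDiff ℝ 1 F)
    (hs : ∀ y, F y ≠ 0 → y ∈ closedBall x R) (ha : IntegrableOn a (closedBall x R)) {r C : ℝ}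
    (hr : r ≤ R)
    (h1 : ∀ y ∈ closedBall x r, a y ≤ dv F W y + C * m y)
    (h2 : ∀ y ∈ closedBall x R, y ∉ closedBall x r → a y ≤ dv F W y) :
    ∫ y in closedBall x R, a y ≤ C * ∫ y in closedBall x r, m y := by
  have hts : tsupport F ⊆ closedBall x R :=
    closure_minimal (fun y hy => hs y hy) isClosed_closedBall
  have h3 : ∫ y in closedBall x R, dv F W y = 0 := h.wd.div F hF hts
  have i1 : IntegrableOn (dv F W) (closedBall x R) := int_cont (dv_cont hF h.wd.cont) _ _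
  have i2 : IntegrableOn ((closedBall x r).indicator fun y => C * m y) (closedBall x R) :=
    ((int_cont (continuous_const.mul h.mc) x R)).indicator isClosed_closedBall.measurableSet
  calc ∫ y in closedBall x R, a y
      ≤ ∫ y in closedBall x R, (dv F W y + (closedBall x r).indicator (fun y => C * m y) y) := by
        refine setIntegral_mono_on ha (i1.add i2) isClosed_closedBall.measurableSet fun y hy => ?_
        by_cases hyr : y ∈ closedBall x r
        · rw [indicator_of_mem hyr]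
          exact h1 y hyr
        · rw [indicator_of_notMem hyr, add_zero]
          exact h2 y hy hyr
    _ = C * ∫ y in closedBall x r, m y := by
        rw [integral_add i1 i2, h3, zero_add, setIntegral_indicator
          isClosed_closedBall.measurableSet, inter_eq_self_of_subset_right
          (closedBall_subset_closedBall hr), integral_const_mul]

lemma dv_mul {F G : V → ℝ} (hF : ContDiff ℝ 1 F) (hG : ContDiff ℝ 1 G) (y : V) :
    dv (fun y => F y * G y) W y = F y * dv G W y + G y * dv F W y := by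
  unfold dv
  have h1 := (hF.differentiable one_ne_zero y).hasFDerivAt
  have h2 := (hG.differentiable one_ne_zero y).hasFDerivAt
  have h3 : fderiv ℝ (fun y => F y * G y) y = F y • fderiv ℝ G y + G y • fderiv ℝ F y :=
    (h1.mul h2).fderiv
  rw [h3]
  simp [smul_eq_mul]

lemma dv_sub {F G : V → ℝ} (hF : ContDiff ℝ 1 F) (hG : ContDiff ℝ 1 G) (y : V) :
    dv (fun y => F y - G y) W y = dv F W y - dv G W y := by
  unfold dv
  have h1 := (hF.differentiable one_ne_zero y).hasFDerivAt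
  have h2 := (hG.differentiable one_ne_zero y).hasFDerivAt
  have h3 : fderiv ℝ (fun y => F y - G y) y = fderiv ℝ F y - fderiv ℝ G y :=
    (h1.sub h2).fderiv
  rw [h3]
  simp

lemma dv_one_sub {G : V → ℝ} (hG : ContDiff ℝ 1 G) (y : V) :
    dv (fun y => 1 - G y) W y = -dv G W y := by
  unfold dv
  have h2 := (hG.differentiable one_ne_zero y).hasFDerivAt
  have h3 : fderiv ℝ (fun y => 1 - G y) y = -fderiv ℝ G y := (h2.const_sub 1).fderiv
  rw [h3]
  simp

/-! ### VL-2 -/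

theorem ub : StmUB := by
  intro κ ρ R r x f m W g hκ hκ1 hρ h hr hrR
  have hsub : closedBall x r ⊆ closedBall x R := closedBall_subset_closedBall hrR
  unfold AA
  rw [setIntegral_eq_of_subset_of_forall_sdiff_eq_zero isClosed_closedBall.measurableSet hsub
    (fun y hy => pr_zero hκ hr hy.2), ← integral_const_mul]
  refine setIntegral_mono_on (int_cont (pr_cont h hρ r) _ _)
    (int_cont (continuous_const.mul ((continuous_const.mul h.fc).add h.mc)) _ _)
    isClosed_closedBall.measurableSet fun y hy => ?_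
  have hyR := hsub hy
  rw [pr_eq]
  have h1 := uu_up h hκ hκ1 hρ hyR
  have h2 := uu_lo0 h hκ hρ hyR
  have h3 := psi_nonneg (ρ := ρ) (g := g) (x := x) hκ hr y
  have h4 := psi_le (ρ := ρ) (g := g) (x := x) hκ hr y
  have h5 := TT_nonneg (κ := κ) (ρ := ρ) (g := g) (x := x) r y
  have h6 := TT_le_one (κ := κ) (ρ := ρ) (g := g) (x := x) r y
  have h7 : psi κ ρ g x r y * (dv (uu κ ρ g x) W y + m y)
      ≤ 128 / (κ * r) * (2 * f y + m y) :=
    mul_le_mul h4 (add_le_add h1 le_rfl) h2 (by positivity)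
  have h8 : 0 ≤ psi κ ρ g x r y * (dv (uu κ ρ g x) W y + m y) := mul_nonneg h3 h2
  calc TT κ ρ g x r y * (psi κ ρ g x r y * (dv (uu κ ρ g x) W y + m y))
      ≤ 1 * (psi κ ρ g x r y * (dv (uu κ ρ g x) W y + m y)) := mul_le_mul_of_nonneg_right h6 h8
    _ ≤ _ := by rw [one_mul]; exact h7

/-! ### VL-3 -/

lemma TT_anti (hκ : 0 < κ) {r r' : ℝ} (hr' : 0 < r') (hrr : r' ≤ r) (y : V) :
    TT κ ρ g x r' y ≤ TT κ ρ g x r y := by
  have hr : 0 < r := by linarith
  rcases le_or_gt 0 (ww κ ρ g x y) with h | h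
  · rw [TT_one hκ hr (by have : 0 < κ * r := by positivity
                         linarith)]
    exact TT_le_one _ _
  · apply stp_mono
    rw [div_le_div_iff₀ (by positivity) (by positivity)]
    have h1 : ww κ ρ g x y * r ≤ ww κ ρ g x y * r' := mul_le_mul_of_nonpos_left hrr h.le
    have h2 : κ * (ww κ ρ g x y * r) ≤ κ * (ww κ ρ g x y * r') :=
      mul_le_mul_of_nonneg_left h1 hκ.le
    nlinarith

lemma PS_anti (hκ : 0 < κ) {r r' : ℝ} (hr' : 0 < r') (hrr : r' ≤ r) (y : V) :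
    PS κ ρ g x r y ≤ PS κ ρ g x r' y := by
  have hr : 0 < r := by linarith
  rcases le_or_gt (uu κ ρ g x y) 0 with h | h
  · rw [PS_zero hκ hr (h.trans (by positivity))]
    exact PS_nonneg _ _
  · apply stp_mono
    rw [div_le_div_iff₀ (by positivity) (by positivity)]
    have h1 : uu κ ρ g x y * r' ≤ uu κ ρ g x y * r := mul_le_mul_of_nonneg_left hrr h.le
    have h2 : κ * (uu κ ρ g x y * r') ≤ κ * (uu κ ρ g x y * r) :=
      mul_le_mul_of_nonneg_left h1 hκ.le
    nlinarith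

theorem cmp : StmCmp := by
  intro κ ρ R r r' x f m W g hκ hκ1 hρ h hr' hrr hrR
  have hr : 0 < r := by linarith
  have hT := TT_smooth (κ := κ) (x := x) h.gs hρ r
  have hP := PS_smooth (κ := κ) (x := x) h.gs hρ r
  have hP' := PS_smooth (κ := κ) (x := x) h.gs hρ r'
  have hsupp : ∀ y, TT κ ρ g x r y * (PS κ ρ g x r' y - PS κ ρ g x r y) ≠ 0 →
      ds x ρ y < 5 / 8 * r := by
    intro y hy
    have h1 := TT_ne hκ hr (left_ne_zero_of_mul hy)
    have h2 : uu κ ρ g x y < κ * r / 32 := by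
      by_contra hc
      apply right_ne_zero_of_mul hy
      have h4 : κ * r' ≤ κ * r := mul_le_mul_of_nonneg_left (by linarith) hκ.le
      rw [PS_one hκ hr (not_lt.1 hc), PS_one hκ hr' (by linarith [not_lt.1 hc]), sub_self]
    exact ds_lt hκ h2 h1
  have key := master h (F := fun y => TT κ ρ g x r y * (PS κ ρ g x r' y - PS κ ρ g x r y))
    (a := fun y => pr κ ρ g x W m r' y - pr κ ρ g x W m r y) (hT.mul (hP'.sub hP))
    (fun y hy => mem_of_ds ((hsupp y hy).le.trans (by linarith)))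
    (int_cont ((pr_cont h hρ r').sub (pr_cont h hρ r)) _ _) (r := r) (C := 256 / (κ * r')) hrR
  have hmain : ∀ y ∈ closedBall x R, pr κ ρ g x W m r' y - pr κ ρ g x W m r y
      ≤ dv (fun y => TT κ ρ g x r y * (PS κ ρ g x r' y - PS κ ρ g x r y)) W y
        + ((PS κ ρ g x r' y - PS κ ρ g x r y) * tau κ ρ g x r y
          + TT κ ρ g x r y * psi κ ρ g x r' y) * m y := by
    intro y hy
    rw [dv_mul hT (hP'.sub hP), dv_sub hP' hP, PS_dv h.gs hρ, PS_dv h.gs hρ, TT_dv h.gs hρ,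
      pr_eq, pr_eq]
    have a1 := TT_anti (ρ := ρ) (g := g) (x := x) hκ hr' (show r' ≤ r by linarith) y
    have a2 := PS_anti (ρ := ρ) (g := g) (x := x) hκ hr' (show r' ≤ r by linarith) y
    have a3 : 0 ≤ dv (uu κ ρ g x) W y + m y := uu_lo0 h hκ hρ hy
    have a4 := psi_nonneg (ρ := ρ) (g := g) (x := x) hκ hr' y
    have a5 := psi_nonneg (ρ := ρ) (g := g) (x := x) hκ hr y
    have a6 : -m y ≤ dv (ww κ ρ g x) W y := ww_lo0 h hκ hρ hy
    have a7 := tau_nonneg (ρ := ρ) (g := g) (x := x) hκ hr y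
    have a8 := h.m0 y
    have a9 := TT_nonneg (κ := κ) (ρ := ρ) (g := g) (x := x) r y
    have b1 := mul_le_mul_of_nonneg_right a1 (mul_nonneg a4 a3)
    have b2 : 0 ≤ (PS κ ρ g x r' y - PS κ ρ g x r y) * tau κ ρ g x r y *
        (dv (ww κ ρ g x) W y + m y) :=
      mul_nonneg (mul_nonneg (sub_nonneg.2 a2) a7) (by linarith)
    have b3 : 0 ≤ TT κ ρ g x r y * psi κ ρ g x r y * m y := mul_nonneg (mul_nonneg a9 a5) a8
    nlinarith
  have hkey := key (fun y hy => ?_) (fun y hy hyr => ?_)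
  · have e : ∫ y in closedBall x R, (pr κ ρ g x W m r' y - pr κ ρ g x W m r y)
        = AA κ ρ R g x W m r' - AA κ ρ R g x W m r := by
      unfold AA
      exact integral_sub (int_cont (pr_cont h hρ r') _ _) (int_cont (pr_cont h hρ r) _ _)
    rw [e] at hkey
    linarith
  · have hyR := closedBall_subset_closedBall hrR hy
    refine (hmain y hyR).trans (add_le_add le_rfl (mul_le_mul_of_nonneg_right ?_ (h.m0 y)))
    have a2 := PS_le_one (κ := κ) (ρ := ρ) (g := g) (x := x) r' y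
    have a3 := PS_nonneg (κ := κ) (ρ := ρ) (g := g) (x := x) r y
    have a4 := psi_nonneg (ρ := ρ) (g := g) (x := x) hκ hr' y
    have a5 := psi_le (ρ := ρ) (g := g) (x := x) hκ hr' y
    have a7 := tau_nonneg (ρ := ρ) (g := g) (x := x) hκ hr y
    have a8 := tau_le (ρ := ρ) (g := g) (x := x) hκ hr y
    have a9 := TT_le_one (κ := κ) (ρ := ρ) (g := g) (x := x) r y
    have b1 : (PS κ ρ g x r' y - PS κ ρ g x r y) * tau κ ρ g x r y ≤ 1 * tau κ ρ g x r y :=
      mul_le_mul_of_nonneg_right (by linarith) a7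
    have b2 : TT κ ρ g x r y * psi κ ρ g x r' y ≤ 1 * psi κ ρ g x r' y :=
      mul_le_mul_of_nonneg_right a9 a4
    have b3 : 32 / (κ * r) ≤ 32 / (κ * r') :=
      div_le_div_of_nonneg_left (by norm_num) (by positivity)
        (mul_le_mul_of_nonneg_left (by linarith) hκ.le)
    have b4 : 256 / (κ * r') = 32 / (κ * r') + 128 / (κ * r') + 96 / (κ * r') := by ring
    have b5 : 0 ≤ 96 / (κ * r') := by positivity
    linarith
  · have hz : TT κ ρ g x r y * (PS κ ρ g x r' y - PS κ ρ g x r y) = 0 := by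
      by_contra hc
      exact hyr (mem_of_ds ((hsupp y hc).le.trans (by linarith)))
    refine (hmain y hy).trans (le_of_eq ?_)
    -- outside of the ball the coefficient vanishes
    have c1 : (PS κ ρ g x r' y - PS κ ρ g x r y) * tau κ ρ g x r y = 0 := by
      by_contra hc
      have d1 := tau_ne hκ hr (right_ne_zero_of_mul hc)
      have d2 : uu κ ρ g x y < κ * r / 32 := by
        by_contra hc2
        apply left_ne_zero_of_mul hc
        have h4 : κ * r' ≤ κ * r := mul_le_mul_of_nonneg_left (by linarith) hκ.le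
        rw [PS_one hκ hr (not_lt.1 hc2), PS_one hκ hr' (by linarith [not_lt.1 hc2]), sub_self]
      exact hyr (mem_of_ds ((ds_lt hκ d2 d1.1).le.trans (by linarith)))
    have c2 : TT κ ρ g x r y * psi κ ρ g x r' y = 0 := by
      by_contra hc
      have d1 := TT_ne hκ hr (left_ne_zero_of_mul hc)
      have d2 := psi_ne hκ hr' (right_ne_zero_of_mul hc)
      have h4 : κ * r' ≤ κ * r := mul_le_mul_of_nonneg_left (by linarith) hκ.le
      exact hyr (mem_of_ds ((ds_lt hκ (show uu κ ρ g x y < κ * r / 32 by linarith [d2.2])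
        d1).le.trans (by linarith)))
    rw [c1, c2]
    ring

end

end Pool.Agent.H2VL
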